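import Mathlib

/-!
Basic tools for one-dimensional singular integral inequalities restricted to functions of mean
value zero: evaluation of the Cauchy kernel integral off the support, a testing lemma, dual
weights, and the passage from adjacent intervals to the `A_p` condition.
-/

open MeasureTheory Set Filter Topology
open scoped ENNReal NNReal

namespace Pool.Agent.H414R4.MZ

/-- `∫ f(y)/(x-y) dy` -/
noncomputable def K (f : ℝ → ℝ) (x : ℝ) : ℝ := ∫ y, f y / (x - y)

/-- The inequality obtained from the weighted bound by evaluating off the support. -/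
def Good (p : ℝ) (D : ℝ≥0∞) (U : ℝ → ℝ) : Prop :=
  ∀ f : ℝ → ℝ, Integrable f → ∫ y, f y = 0 → ∀ J : Set ℝ, MeasurableSet J →
    (∀ x ∈ J, ∃ ε > 0, ∀ y, |y - x| < ε → f y = 0) →
    ∫⁻ x in J, ENNReal.ofReal (|K f x| ^ p * U x) ≤ D * ∫⁻ x, ENNReal.ofReal (|f x| ^ p * U x)

/-- the dual weight `U^{-1/(p-1)}`, with value `∞` where `U = 0` -/
noncomputable def sig (p : ℝ) (U : ℝ → ℝ) (x : ℝ) : ℝ≥0∞ :=
  ENNReal.ofReal (U x) ^ (-(1 / (p - 1)))

theorem int_div {g : ℝ → ℝ} (hg : Integrable g) {x ε : ℝ} (hε : 0 < ε)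
    (h : ∀ y, |y - x| < ε → g y = 0) : Integrable (fun y => g y / (x - y)) := by
  refine Integrable.mono (hg.norm.div_const ε) ?_ ?_
  · have : (fun y => g y / (x - y)) = fun y => g y * (x - y)⁻¹ := by
      funext y; rw [div_eq_mul_inv]
    rw [this]
    exact hg.aestronglyMeasurable.mul
      ((measurable_const.sub measurable_id).inv.aestronglyMeasurable)
  · filter_upwards with y
    rw [norm_div, norm_div, norm_norm]
    by_cases hy : |y - x| < ε
    · rw [h y hy]; simp
    · push Not at hy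
      have h1 : ε ≤ ‖x - y‖ := by rw [Real.norm_eq_abs, abs_sub_comm]; exact hy
      rw [Real.norm_of_nonneg hε.le]
      exact div_le_div_of_nonneg_left (norm_nonneg _) hε h1

theorem test {p : ℝ} (hp : 1 < p) {D : ℝ≥0∞} {U : ℝ → ℝ} (hUm : Measurable U)
    (hU0 : ∀ x, 0 ≤ U x) (hG : Good p D U) {g ψ : ℝ → ℝ} (hgm : Measurable g)
    (_hψm : Measurable ψ)
    (hg : Integrable g) (hψ : Integrable ψ) (hψ1 : ∫ y, ψ y = 1)
    {J : Set ℝ} (hJ : MeasurableSet J)
    (hsep : ∀ x ∈ J, ∃ ε > 0, ∀ y, |y - x| < ε → g y = 0 ∧ ψ y = 0)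
    {κ : ℝ → ℝ} (hκ0 : ∀ x ∈ J, 0 ≤ κ x)
    (hκ : ∀ x ∈ J, κ x ≤ |∫ y, g y * (1 / (x - y) - ∫ z, ψ z / (x - z))|) :
    ∫⁻ x in J, ENNReal.ofReal (κ x ^ p * U x) ≤
      D * (2 ^ (p - 1) * ((∫⁻ x, ENNReal.ofReal (|g x| ^ p * U x)) +
        ENNReal.ofReal (|∫ y, g y| ^ p) * ∫⁻ x, ENNReal.ofReal (|ψ x| ^ p * U x))) := by
  set m := ∫ y, g y with hm
  set f : ℝ → ℝ := fun y => g y - m * ψ y with hf
  have hfi : Integrable f := hg.sub (hψ.const_mul m)
  have hf0 : ∫ y, f y = 0 := by
    rw [hf, integral_sub hg (hψ.const_mul m), integral_const_mul, hψ1]; simp [hm]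
  have hfz : ∀ x ∈ J, ∃ ε > 0, ∀ y, |y - x| < ε → f y = 0 := by
    intro x hx
    obtain ⟨ε, hε, h⟩ := hsep x hx
    exact ⟨ε, hε, fun y hy => by simp [hf, (h y hy).1, (h y hy).2]⟩
  have hKf : ∀ x ∈ J, K f x = ∫ y, g y * (1 / (x - y) - ∫ z, ψ z / (x - z)) := by
    intro x hx
    obtain ⟨ε, hε, h⟩ := hsep x hx
    have hgi := int_div hg hε (fun y hy => (h y hy).1)
    have hψi := int_div hψ hε (fun y hy => (h y hy).2)
    have e1 : K f x = (∫ y, g y / (x - y)) - m * ∫ z, ψ z / (x - z) := by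
      unfold K
      rw [← integral_const_mul, ← integral_sub hgi (hψi.const_mul m)]
      apply integral_congr_ae
      filter_upwards with y
      simp only [hf]; ring
    have e2 : ∫ y, g y * (1 / (x - y) - ∫ z, ψ z / (x - z)) =
        (∫ y, g y / (x - y)) - m * ∫ z, ψ z / (x - z) := by
      have : (fun y => g y * (1 / (x - y) - ∫ z, ψ z / (x - z))) =
          fun y => g y / (x - y) - g y * ∫ z, ψ z / (x - z) := by
        funext y; ring
      rw [this, integral_sub hgi (hg.mul_const _), integral_mul_const]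
    rw [e1, e2]
  have h1 : ∫⁻ x in J, ENNReal.ofReal (κ x ^ p * U x) ≤
      ∫⁻ x in J, ENNReal.ofReal (|K f x| ^ p * U x) := by
    apply setLIntegral_mono_ae' hJ
    filter_upwards with x hx
    apply ENNReal.ofReal_le_ofReal
    apply mul_le_mul_of_nonneg_right _ (hU0 x)
    apply Real.rpow_le_rpow (hκ0 x hx) _ (by linarith)
    rw [hKf x hx]; exact hκ x hx
  refine h1.trans ((hG f hfi hf0 J hJ hfz).trans ?_)
  gcongr
  have h2 : ∀ x, ENNReal.ofReal (|f x| ^ p * U x) ≤ 2 ^ (p - 1) *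
      (ENNReal.ofReal (|g x| ^ p * U x) +
        ENNReal.ofReal (|m| ^ p) * ENNReal.ofReal (|ψ x| ^ p * U x)) := by
    intro x
    have h3 : ENNReal.ofReal (|f x| ^ p) ≤ 2 ^ (p - 1) *
        (ENNReal.ofReal (|g x| ^ p) + ENNReal.ofReal (|m| ^ p) * ENNReal.ofReal (|ψ x| ^ p)) := by
      have h4 : ENNReal.ofReal |f x| ≤ ENNReal.ofReal |g x| + ENNReal.ofReal (|m| * |ψ x|) := by
        rw [← ENNReal.ofReal_add (abs_nonneg _) (by positivity)]
        apply ENNReal.ofReal_le_ofReal
        rw [← abs_mul]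
        exact abs_sub _ _
      have h5 := ENNReal.rpow_add_le_mul_rpow_add_rpow (ENNReal.ofReal |g x|)
        (ENNReal.ofReal (|m| * |ψ x|)) hp.le
      rw [← ENNReal.ofReal_rpow_of_nonneg (abs_nonneg _) (by linarith),
        ← ENNReal.ofReal_rpow_of_nonneg (abs_nonneg (g x)) (by linarith),
        ← ENNReal.ofReal_mul (by positivity), ← Real.mul_rpow (abs_nonneg _) (abs_nonneg _),
        ← ENNReal.ofReal_rpow_of_nonneg (by positivity) (by linarith)]
      exact (ENNReal.rpow_le_rpow h4 (by linarith)).trans h5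
    rw [ENNReal.ofReal_mul (by positivity), ENNReal.ofReal_mul (by positivity),
      ENNReal.ofReal_mul (p := |ψ x| ^ p) (by positivity)]
    calc ENNReal.ofReal (|f x| ^ p) * ENNReal.ofReal (U x)
        ≤ (2 ^ (p - 1) * (ENNReal.ofReal (|g x| ^ p) +
            ENNReal.ofReal (|m| ^ p) * ENNReal.ofReal (|ψ x| ^ p))) * ENNReal.ofReal (U x) := by
          gcongr
      _ = _ := by ring
  calc ∫⁻ x, ENNReal.ofReal (|f x| ^ p * U x)
      ≤ ∫⁻ x, 2 ^ (p - 1) * (ENNReal.ofReal (|g x| ^ p * U x) +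
        ENNReal.ofReal (|m| ^ p) * ENNReal.ofReal (|ψ x| ^ p * U x)) := lintegral_mono h2
    _ = _ := by
      rw [lintegral_const_mul' _ _ (by
        exact ENNReal.rpow_ne_top_of_nonneg (by linarith) (by simp)),
        lintegral_add_left (by fun_prop), lintegral_const_mul' _ _ ENNReal.ofReal_ne_top]

/-- mean value property of `1/(x-z)` -/
theorem mean_c {ψ : ℝ → ℝ} (hψ : Integrable ψ) (hψ0 : ∀ x, 0 ≤ ψ x) (hψ1 : ∫ y, ψ y = 1)
    {α β x : ℝ} (hsupp : ∀ z, z ∉ Icc α β → ψ z = 0) (hx : β < x ∨ x < α) :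
    ∃ z₀ ∈ Icc α β, ∫ z, ψ z / (x - z) = 1 / (x - z₀) := by
  have hαβ : α ≤ β := by
    by_contra hc
    have : ∫ y, ψ y = 0 := by
      have : ψ = fun _ => 0 := by
        funext z; apply hsupp; intro hz; exact hc (hz.1.trans hz.2)
      rw [this]; simp
    rw [this] at hψ1; norm_num at hψ1
  have hint : Integrable (fun z => ψ z / (x - z)) := by
    rcases hx with hx | hx
    · refine int_div hψ (sub_pos.mpr hx) fun y hy => hsupp y fun hz => ?_
      have := hz.2; rw [abs_lt] at hy; linarith [hy.1]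
    · refine int_div hψ (sub_pos.mpr hx) fun y hy => hsupp y fun hz => ?_
      have := hz.1; rw [abs_lt] at hy; linarith [hy.2]
  set c := ∫ z, ψ z / (x - z) with hc
  have mono1 : ∀ A : ℝ, (∀ z ∈ Icc α β, A ≤ 1 / (x - z)) → A ≤ c := by
    intro A hA
    have : A = ∫ z, ψ z * A := by rw [integral_mul_const, hψ1, one_mul]
    rw [this, hc]
    apply integral_mono (hψ.mul_const A) hint
    intro z
    by_cases hz : z ∈ Icc α β
    · have := mul_le_mul_of_nonneg_left (hA z hz) (hψ0 z)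
      simpa [div_eq_mul_inv] using this
    · simp [hsupp z hz]
  have mono2 : ∀ A : ℝ, (∀ z ∈ Icc α β, 1 / (x - z) ≤ A) → c ≤ A := by
    intro A hA
    have : A = ∫ z, ψ z * A := by rw [integral_mul_const, hψ1, one_mul]
    rw [this, hc]
    apply integral_mono hint (hψ.mul_const A)
    intro z
    by_cases hz : z ∈ Icc α β
    · have := mul_le_mul_of_nonneg_left (hA z hz) (hψ0 z)
      simpa [div_eq_mul_inv] using this
    · simp [hsupp z hz]
  rcases hx with hx | hx
  · have l1 : 1 / (x - α) ≤ c := mono1 _ fun z hz => by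
      apply one_div_le_one_div_of_le <;> linarith [hz.1, hz.2]
    have l2 : c ≤ 1 / (x - β) := mono2 _ fun z hz => by
      apply one_div_le_one_div_of_le <;> linarith [hz.1, hz.2]
    have hxa : 0 < x - α := by linarith
    have hxb : 0 < x - β := by linarith
    have hc0 : 0 < c := lt_of_lt_of_le (by positivity) l1
    refine ⟨x - 1 / c, ⟨?_, ?_⟩, ?_⟩
    · have : 1 / c ≤ x - α := by
        rw [div_le_iff₀ hc0]; rw [div_le_iff₀ hxa] at l1; linarith
      linarith
    · have : x - β ≤ 1 / c := by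
        rw [le_div_iff₀ hc0]; rw [le_div_iff₀ hxb] at l2; linarith
      linarith
    · field_simp; ring
  · have l1 : c ≤ 1 / (x - β) := mono2 _ fun z hz => by
      rw [← neg_le_neg_iff, ← one_div_neg_eq_neg_one_div, ← one_div_neg_eq_neg_one_div]
      apply one_div_le_one_div_of_le <;> linarith [hz.1, hz.2]
    have l2 : 1 / (x - α) ≤ c := mono1 _ fun z hz => by
      rw [← neg_le_neg_iff, ← one_div_neg_eq_neg_one_div, ← one_div_neg_eq_neg_one_div]
      apply one_div_le_one_div_of_le <;> linarith [hz.1, hz.2]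
    have hxa : x - α < 0 := by linarith
    have hxb : x - β < 0 := by linarith
    have hc0 : c < 0 := lt_of_le_of_lt l1 (by rw [one_div]; exact inv_lt_zero.mpr hxb)
    refine ⟨x - 1 / c, ⟨?_, ?_⟩, ?_⟩
    · have : 1 / c ≤ x - α := by
        rw [div_le_iff_of_neg hc0]; rw [div_le_iff_of_neg hxa] at l2; linarith
      linarith
    · have : x - β ≤ 1 / c := by
        rw [le_div_iff_of_neg hc0]; rw [le_div_iff_of_neg hxb] at l1; linarith
      linarith
    · have : c ≠ 0 := hc0.ne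
      field_simp; ring

end Pool.Agent.H414R4.MZ
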