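import Pool.Agent.H414R4.MZCases2

open MeasureTheory Set Filter Topology
open scoped ENNReal NNReal

namespace Pool.Agent.H414R4.MZ

variable {p : ℝ} {U : ℝ → ℝ}

/-- the constant appearing in the case of an integrable dual weight -/
noncomputable def K0 (p : ℝ) (U : ℝ → ℝ) (D : ℝ≥0∞) : ℝ≥0∞ :=
  D * (2 ^ (p - 1) * (1 + (∫⁻ x, sig p U x) ^ (p - 1) * ∫⁻ x in Icc (-3 : ℝ) 3, ENNReal.ofReal (U x)))

theorem caseIII_small (hp : 1 < p) {D : ℝ≥0∞} (hUm : Measurable U)
    (hU0 : ∀ x, 0 ≤ U x) (hG : Good p D U) (hS : ∫⁻ x, sig p U x ≠ ⊤)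
    {I I' : Set ℝ} {L s : ℝ} (hL : 0 < L) (hs : s = 1 ∨ s = -1) (hI : MeasurableSet I)
    (hIfin : volume I < ⊤) (hI' : IsOpen I') (hdisj : ∀ x ∈ I', x ∉ I)
    (hadj : ∀ x ∈ I', ∀ y ∈ I, 0 < s * (x - y) ∧ s * (x - y) ≤ 2 * L)
    (hsm : ∀ x ∈ I', 8 * L ≤ 1 + |x|) (hside : (∀ x ∈ I', -1 ≤ x) ∨ (∀ x ∈ I', x ≤ 1)) :
    Hyp p (fun x => (1 + |x|) ^ (-p) * U x) I I' (ENNReal.ofReal (8 * L) ^ p * K0 p U D) := by
  rintro G hGm hG0 ⟨M, hM⟩
  have hp0 : 0 < p := by linarith
  set F : ℝ → ℝ := I.indicator G with hF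
  have hFm : Measurable F := hGm.indicator hI
  have hF0 : ∀ y, 0 ≤ F y := fun y => indicator_nonneg (fun y _ => hG0 y) y
  have hFz : ∀ y, y ∉ I → F y = 0 := fun y hy => indicator_of_notMem hy _
  have hFG : ∀ y ∈ I, F y = G y := fun y hy => indicator_of_mem hy _
  have hM0 : 0 ≤ M := (hG0 0).trans (hM 0)
  have hFM : ∀ y, |F y| ≤ M := by
    intro y
    rw [abs_of_nonneg (hF0 y)]
    by_cases hy : y ∈ I
    · rw [hFG y hy]; exact hM y
    · rw [hFz y hy]; exact hM0
  have hFi : Integrable F := int_bdd hFm hFM hI hIfin hFz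
  obtain ⟨β, hβ, hβd⟩ : ∃ β : ℝ, Icc β (β + 1) ⊆ Icc (-3 : ℝ) 3 ∧
      ∀ x ∈ I', ∀ z ∈ Icc β (β + 1), 4 * L ≤ |x - z| := by
    rcases hside with h | h
    · refine ⟨-3, fun z hz => ⟨hz.1, by linarith [hz.2]⟩, fun x hx z hz => ?_⟩
      have h1 := hsm x hx
      have h2 := h x hx
      have h3 : x + 2 ≤ |x - z| := (by linarith [hz.2] : x + 2 ≤ x - z).trans (le_abs_self _)
      rcases le_total 0 x with h4 | h4
      · rw [abs_of_nonneg h4] at h1; linarith
      · rw [abs_of_nonpos h4] at h1; linarith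
    · refine ⟨2, fun z hz => ⟨by linarith [hz.1], by linarith [hz.2]⟩, fun x hx z hz => ?_⟩
      have h1 := hsm x hx
      have h2 := h x hx
      have h3 : 2 - x ≤ |x - z| := (by linarith [hz.1] : 2 - x ≤ -(x - z)).trans (neg_le_abs _)
      rcases le_total 0 x with h4 | h4
      · rw [abs_of_nonneg h4] at h1; linarith
      · rw [abs_of_nonpos h4] at h1; linarith
  obtain ⟨hψm, hψi, hψ1, hψn⟩ := unitψ hp U β hβ
  set ψ : ℝ → ℝ := (Icc β (β + 1)).indicator (fun _ => (1 : ℝ)) with hψ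
  have hψ0 : ∀ x, 0 ≤ ψ x := fun x => indicator_nonneg (fun _ _ => zero_le_one) x
  have hψd : ∀ x ∈ I', ∀ z, ψ z ≠ 0 → 4 * L ≤ |x - z| := by
    intro x hx z hz
    apply hβd x hx z
    by_contra h
    exact hz (indicator_of_notMem h _)
  have hsep : ∀ x ∈ I', ∃ ε > 0, ∀ y, |y - x| < ε → F y = 0 ∧ ψ y = 0 := by
    intro x hx
    obtain ⟨ε, hε, hball⟩ := Metric.isOpen_iff.mp hI' x hx
    refine ⟨min ε (4 * L), by positivity, fun y hy => ⟨?_, ?_⟩⟩
    · have hyI' : y ∈ I' := hball (by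
        rw [Metric.mem_ball, Real.dist_eq]; exact lt_of_lt_of_le hy (min_le_left _ _))
      exact hFz y fun h => hdisj y hyI' h
    · by_contra h
      have h1 := hψd x hx y h
      rw [abs_sub_comm] at h1
      have h2 := min_le_right ε (4 * L)
      linarith
  have hlow : ∀ x ∈ I', (∫ y, F y) / (8 * L * (1 + |x|)) ≤
      |∫ y, (F y / (1 + |y|)) * (1 / (x - y) - ∫ z, ψ z / (x - z))| := by
    intro x hx
    obtain ⟨ε, hε, hz⟩ := hsep x hx
    have hcs := c_small hψi hψ0 hψ1 (δ := 4 * L) (by positivity) (hψd x hx)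
    set c := ∫ z, ψ z / (x - z) with hc
    have hgi : Integrable (fun y => F y / (1 + |y|)) := by
      apply int_bdd (by fun_prop) (M := M) _ hI hIfin (fun y hy => by simp [hFz y hy])
      intro y
      rw [abs_div, abs_of_nonneg (a := 1 + |y|) (by positivity)]
      have : |F y| / (1 + |y|) ≤ |F y| := by
        apply div_le_self (abs_nonneg _)
        have := abs_nonneg y; linarith
      exact this.trans (hFM y)
    rw [← integral_div]
    refine low (s := s) hgi (hFi.div_const _) hε (fun y hy => by simp [(hz y hy).1]) ?_ ?_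
    · rcases hs with h | h <;> rw [h] <;> simp
    · intro y
      by_cases hy : y ∈ I
      · obtain ⟨h1, h2⟩ := hadj x hx y hy
        have h3 : 1 / (2 * L) ≤ s * (1 / (x - y)) := by
          have e : s * (1 / (x - y)) = 1 / (s * (x - y)) := by
            rcases hs with h | h <;> rw [h]
            · simp
            · rw [neg_one_mul, neg_one_mul, ← one_div_neg_eq_neg_one_div]
          rw [e]
          exact one_div_le_one_div_of_le h1 h2
        have h4 : s * c ≤ 1 / (4 * L) := by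
          have h5 := abs_le.mp hcs
          rcases hs with h | h <;> rw [h] <;> linarith [h5.1, h5.2]
        have h6 : 1 / (4 * L) ≤ s * (1 / (x - y) - c) := by
          have : 1 / (2 * L) - 1 / (4 * L) = 1 / (4 * L) := by field_simp; norm_num
          rw [mul_sub]; linarith
        have hxy : |x - y| ≤ 2 * L := by
          rcases hs with h | h
          · rw [h, one_mul] at h1 h2; rw [abs_of_pos h1]; exact h2
          · rw [h, neg_one_mul] at h1 h2; rw [abs_of_neg (by linarith)]; exact h2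
        have hyx : 1 + |y| ≤ 2 * (1 + |x|) := by
          have h7 : |y| ≤ |x| + |x - y| := by
            have := abs_sub_abs_le_abs_sub y x
            rw [abs_sub_comm y x] at this; linarith
          have h8 := hsm x hx
          linarith
        calc F y / (8 * L * (1 + |x|)) = F y * (1 / (2 * (1 + |x|))) * (1 / (4 * L)) := by
              field_simp; ring
          _ ≤ F y * (1 / (1 + |y|)) * (s * (1 / (x - y) - c)) := by
              have h9 : 1 / (2 * (1 + |x|)) ≤ 1 / (1 + |y|) :=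
                one_div_le_one_div_of_le (by positivity) hyx
              have h10 := hF0 y
              gcongr
          _ = _ := by ring
      · simp [hFz y hy]
  have h1 := coreIII hp hUm hU0 hG hS hψm hψi hψ1 hψn hFm hF0 hFM hI hIfin hFz hI'.measurableSet
    hsep (B := 8 * L) (by positivity) hlow
  have h3 : ∫⁻ y, ENNReal.ofReal (F y) = ∫⁻ y in I, ENNReal.ofReal (G y) := by
    rw [← lintegral_indicator hI]
    apply lintegral_congr
    intro y
    by_cases hy : y ∈ I
    · rw [indicator_of_mem hy, hFG y hy]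
    · rw [indicator_of_notMem hy, hFz y hy, ENNReal.ofReal_zero]
  have h4 : ∫⁻ x, ENNReal.ofReal (F x ^ p * ((1 + |x|) ^ (-p) * U x)) =
      ∫⁻ x in I, ENNReal.ofReal (G x ^ p * ((1 + |x|) ^ (-p) * U x)) := by
    rw [← lintegral_indicator hI]
    apply lintegral_congr
    intro y
    by_cases hy : y ∈ I
    · rw [indicator_of_mem hy, hFG y hy]
    · rw [indicator_of_notMem hy, hFz y hy, Real.zero_rpow hp0.ne', zero_mul,
        ENNReal.ofReal_zero]
  rw [h3, h4] at h1
  exact h1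

theorem kerL {t x y z s : ℝ} (hs : s = 1 ∨ s = -1) (hx0 : 0 < -s * x) (hxt : -s * x < t)
    (hy : 2 ≤ s * y) (hyt : s * y < t) (hz0 : 0 ≤ s * z) (hz1 : s * z ≤ 1) :
    1 / (6 * t * (1 + |x|)) ≤ s * (1 / (1 + |y|) * (1 / (x - y) - 1 / (x - z))) := by
  have main : ∀ ξ a b : ℝ, 0 < ξ → ξ < t → 2 ≤ a → a < t → 0 ≤ b → b ≤ 1 →
      1 / (6 * t * (1 + ξ)) ≤ 1 / (1 + a) * ((a - b) / ((ξ + a) * (ξ + b))) := by
    intro ξ a b h1 h2 h3 h4 h5 h6
    have ht : 0 < t := by linarith
    rw [one_div_mul_eq_div, div_div, div_le_div_iff₀ (by positivity) (by positivity)]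
    have e1 : 1 + a ≤ 3 * (a - b) := by linarith
    have e2 : ξ + a ≤ 2 * t := by linarith
    have e3 : ξ + b ≤ 1 + ξ := by linarith
    have e4 : (ξ + a) * (ξ + b) * (1 + a) ≤ (2 * t) * (1 + ξ) * (3 * (a - b)) := by
      gcongr
    linarith
  rcases hs with h | h
  · subst h
    have hx : x < 0 := by linarith
    have hy0 : 0 < y := by linarith
    rw [abs_of_neg hx, abs_of_pos hy0]
    have := main (-x) y z (by linarith) (by linarith) (by linarith) (by linarith) (by linarith)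
      (by linarith)
    have e : 1 / (x - y) - 1 / (x - z) = (y - z) / ((-x + y) * (-x + z)) := by
      have h1 : x - y ≠ 0 := by linarith
      have h2 : x - z ≠ 0 := by linarith
      have h3 : -x + y ≠ 0 := by linarith
      have h4 : -x + z ≠ 0 := by linarith
      field_simp
      ring
    rw [e, one_mul]; exact this
  · subst h
    have hx : 0 < x := by linarith
    have hy0 : y < 0 := by linarith
    rw [abs_of_pos hx, abs_of_neg hy0]
    have := main x (-y) (-z) (by linarith) (by linarith) (by linarith) (by linarith) (by linarith)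
      (by linarith)
    have e : -1 * (1 / (1 + -y) * (1 / (x - y) - 1 / (x - z))) =
        1 / (1 + -y) * ((-y - -z) / ((x + -y) * (x + -z))) := by
      have h1 : x - y ≠ 0 := by linarith
      have h2 : x - z ≠ 0 := by linarith
      have h3 : x + -y ≠ 0 := by linarith
      have h4 : x + -z ≠ 0 := by linarith
      have h5 : 1 + -y ≠ 0 := by linarith
      field_simp
      ring
    rw [e]; exact this

/-- the half interval `{y : 0 < s y < t}` -/
def half (s t : ℝ) : Set ℝ := {y | 0 < s * y ∧ s * y < t}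

theorem half_open (s t : ℝ) : IsOpen (half s t) := by
  have h1 : IsOpen {y : ℝ | 0 < s * y} :=
    isOpen_lt continuous_const (continuous_const.mul continuous_id)
  have h2 : IsOpen {y : ℝ | s * y < t} :=
    isOpen_lt (continuous_const.mul continuous_id) continuous_const
  exact h1.inter h2

theorem large_core (hp : 1 < p) {D : ℝ≥0∞} (hUm : Measurable U)
    (hU0 : ∀ x, 0 ≤ U x) (hG : Good p D U) (hS : ∫⁻ x, sig p U x ≠ ⊤)
    {t s : ℝ} (ht : 0 < t) (hs : s = 1 ∨ s = -1)
    {F : ℝ → ℝ} (hFm : Measurable F) (hF0 : ∀ y, 0 ≤ F y) {M : ℝ} (hFM : ∀ y, |F y| ≤ M)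
    (hFz : ∀ y, ¬ (2 ≤ s * y ∧ s * y < t) → F y = 0) :
    (∫⁻ x in half (-s) t, ENNReal.ofReal ((1 + |x|) ^ (-p) * U x)) *
      (∫⁻ y, ENNReal.ofReal (F y)) ^ p ≤
      (ENNReal.ofReal (6 * t) ^ p * K0 p U D) *
        ∫⁻ x, ENNReal.ofReal (F x ^ p * ((1 + |x|) ^ (-p) * U x)) := by
  have hp0 : 0 < p := by linarith
  set I : Set ℝ := Icc (-t) t with hIdef
  have hIm : MeasurableSet I := measurableSet_Icc
  have hIfin : volume I < ⊤ := by simp [hIdef]
  have hFI : ∀ y, y ∉ I → F y = 0 := by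
    intro y hy
    apply hFz
    rintro ⟨h1, h2⟩
    apply hy
    rcases hs with h | h <;> rw [h] at h1 h2 <;> constructor <;> linarith
  have hFi : Integrable F := int_bdd hFm hFM hIm hIfin hFI
  obtain ⟨β, hβ, hβs⟩ : ∃ β : ℝ, Icc β (β + 1) ⊆ Icc (-3 : ℝ) 3 ∧
      ((s = 1 ∧ β = 0) ∨ (s = -1 ∧ β = -1)) := by
    rcases hs with h | h
    · exact ⟨0, fun z hz => ⟨by linarith [hz.1], by linarith [hz.2]⟩, Or.inl ⟨h, rfl⟩⟩
    · exact ⟨-1, fun z hz => ⟨by linarith [hz.1], by linarith [hz.2]⟩, Or.inr ⟨h, rfl⟩⟩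
  have hβz : ∀ z ∈ Icc β (β + 1), 0 ≤ s * z ∧ s * z ≤ 1 := by
    intro z hz
    rcases hβs with ⟨h, h'⟩ | ⟨h, h'⟩ <;> rw [h] <;> rw [h'] at hz <;>
      constructor <;> linarith [hz.1, hz.2]
  obtain ⟨hψm, hψi, hψ1, hψn⟩ := unitψ hp U β hβ
  set ψ : ℝ → ℝ := (Icc β (β + 1)).indicator (fun _ => (1 : ℝ)) with hψ
  have hψ0 : ∀ x, 0 ≤ ψ x := fun x => indicator_nonneg (fun _ _ => zero_le_one) x
  have hψz : ∀ z, z ∉ Icc β (β + 1) → ψ z = 0 := fun z hz => indicator_of_notMem hz _
  have hsep : ∀ x ∈ half (-s) t, ∃ ε > 0, ∀ y, |y - x| < ε → F y = 0 ∧ ψ y = 0 := by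
    intro x hx
    refine ⟨-s * x, hx.1, fun y hy => ?_⟩
    have hsy : s * y < 0 := by
      rw [abs_lt] at hy
      rcases hs with h | h <;> rw [h] at hy ⊢ <;> linarith [hy.1, hy.2]
    refine ⟨hFz y fun h => by linarith [h.1], hψz y fun h => ?_⟩
    linarith [(hβz y h).1]
  have hlow : ∀ x ∈ half (-s) t, (∫ y, F y) / (6 * t * (1 + |x|)) ≤
      |∫ y, (F y / (1 + |y|)) * (1 / (x - y) - ∫ z, ψ z / (x - z))| := by
    intro x hx
    obtain ⟨ε, hε, hz⟩ := hsep x hx
    obtain ⟨z₀, hz₀, hc⟩ := mean_c hψi hψ0 hψ1 (x := x) hψz (by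
      rcases hβs with ⟨h, h'⟩ | ⟨h, h'⟩
      · right; have := hx.1; rw [h] at this; rw [h']; linarith
      · left; have := hx.1; rw [h] at this; rw [h']; linarith)
    rw [hc]
    have hgi : Integrable (fun y => F y / (1 + |y|)) := by
      apply int_bdd (by fun_prop) (M := M) _ hIm hIfin (fun y hy => by simp [hFI y hy])
      intro y
      rw [abs_div, abs_of_nonneg (a := 1 + |y|) (by positivity)]
      have : |F y| / (1 + |y|) ≤ |F y| := by
        apply div_le_self (abs_nonneg _)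
        have := abs_nonneg y; linarith
      exact this.trans (hFM y)
    rw [← integral_div]
    refine low (s := s) hgi (hFi.div_const _) hε (fun y hy => by simp [(hz y hy).1]) ?_ ?_
    · rcases hs with h | h <;> rw [h] <;> simp
    · intro y
      by_cases hy : 2 ≤ s * y ∧ s * y < t
      · have hk := kerL hs hx.1 hx.2 hy.1 hy.2 (hβz z₀ hz₀).1 (hβz z₀ hz₀).2
        calc F y / (6 * t * (1 + |x|)) = F y * (1 / (6 * t * (1 + |x|))) := by ring
          _ ≤ F y * (s * (1 / (1 + |y|) * (1 / (x - y) - 1 / (x - z₀)))) := by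
            gcongr; exact hF0 y
          _ = _ := by ring
      · simp [hFz y hy]
  exact coreIII hp hUm hU0 hG hS hψm hψi hψ1 hψn hFm hF0 hFM hIm hIfin hFI
    (half_open _ _).measurableSet hsep (B := 6 * t) (by positivity) hlow

end Pool.Agent.H414R4.MZ
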