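import Pool.Agent.H414R4.MZCore

open MeasureTheory Set Filter Topology
open scoped ENNReal NNReal

namespace Pool.Agent.H414R4.MZ

variable {p : ℝ} {U : ℝ → ℝ}

theorem kerI {L X Y Z d η s r : ℝ} (hL : 0 < L) (hη : 0 < η) (hX : r * X = |X|)
    (hXη : η ≤ |X|) (hYη : η ≤ |Y|) (hZ : |Z| ≤ η / 2) (hd : d = X - Y)
    (hs : s = 1 ∨ s = -1) (hr : r = 1 ∨ r = -1) (hd0 : 0 < s * d) (hd1 : s * d ≤ 2 * L) :
    1 / (6 * L * |X|) ≤ s * r * (1 / Y * (1 / d - 1 / (X - Z))) := by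
  have hX0 : 0 < |X| := by linarith
  have hY0 : Y ≠ 0 := by
    intro h; rw [h, abs_zero] at hYη; linarith
  have hd' : d ≠ 0 := by
    intro h; rw [h, mul_zero] at hd0; exact lt_irrefl _ hd0
  have hrZ : |r * Z| ≤ η / 2 := by
    rcases hr with h | h <;> rw [h] <;> simpa using hZ
  have hrZ1 := abs_le.mp hrZ
  have hP2 : 0 < r * (X - Z) := by rw [mul_sub, hX]; linarith [hrZ1.2]
  have hP2' : r * (X - Z) ≤ 3 / 2 * |X| := by rw [mul_sub, hX]; linarith [hrZ1.1]
  have hXZ : X - Z ≠ 0 := by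
    intro h; rw [h, mul_zero] at hP2; exact lt_irrefl _ hP2
  have hA : 1 / 2 ≤ 1 - Z / Y := by
    have : |Z / Y| ≤ 1 / 2 := by
      rw [abs_div, div_le_iff₀ (lt_of_lt_of_le hη hYη)]
      linarith
    linarith [(abs_le.mp this).2]
  have e : s * r * (1 / Y * (1 / d - 1 / (X - Z))) = (1 - Z / Y) / ((s * d) * (r * (X - Z))) := by
    have hYd : Y = X - d := by linarith
    rcases hs with h | h <;> rcases hr with h' | h' <;> rw [h, h'] <;> field_simp <;>
      rw [hYd] <;> ring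
  rw [e, div_le_div_iff₀ (by positivity) (by positivity)]
  have h1 : (s * d) * (r * (X - Z)) ≤ 2 * L * (3 / 2 * |X|) := by gcongr
  have h2 : 0 < (s * d) * (r * (X - Z)) := by positivity
  nlinarith [mul_le_mul hA h1 h2.le (by linarith), mul_pos hL hX0]

/-- Case of a point near which the dual weight is not integrable, away from that point. -/
theorem caseI_eta (hp : 1 < p) {D : ℝ≥0∞} (hD : D ≠ ⊤) (hUm : Measurable U)
    (hU0 : ∀ x, 0 ≤ U x) (hG : Good p D U) {x₀ : ℝ}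
    (hsing : ∀ η > 0, ∫⁻ x in Ioo (x₀ - η) (x₀ + η), sig p U x = ⊤)
    {I I' : Set ℝ} {L s : ℝ} (hL : 0 < L) (hs : s = 1 ∨ s = -1) (hI : MeasurableSet I)
    (hIfin : volume I < ⊤) (hI' : IsOpen I') (hdisj : ∀ x ∈ I', x ∉ I)
    (hadj : ∀ x ∈ I', ∀ y ∈ I, 0 < s * (x - y) ∧ s * (x - y) ≤ 2 * L)
    {G : ℝ → ℝ} (hGm : Measurable G) (hG0 : ∀ x, 0 ≤ G x) {M : ℝ} (hM : ∀ x, G x ≤ M)
    {η : ℝ} (hη : 0 < η) :
    (∫⁻ x in I' ∩ {x | η ≤ |x - x₀|}, ENNReal.ofReal (|x - x₀| ^ (-p) * U x)) *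
      (∫⁻ x in I ∩ {x | η ≤ |x - x₀|}, ENNReal.ofReal (G x)) ^ p ≤
      (ENNReal.ofReal (6 * L) ^ p * (D * 2 ^ (p - 1))) *
        ∫⁻ x in I, ENNReal.ofReal (G x ^ p * (|x - x₀| ^ (-p) * U x)) := by
  have hp0 : 0 < p := by linarith
  set Sη : Set ℝ := {x | η ≤ |x - x₀|} with hSη
  have hSm : MeasurableSet Sη := measurableSet_le measurable_const (by fun_prop)
  have hIS : MeasurableSet (I ∩ Sη) := hI.inter hSm
  set F : ℝ → ℝ := (I ∩ Sη).indicator G with hF
  have hFm : Measurable F := hGm.indicator hIS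
  have hF0 : ∀ y, 0 ≤ F y := fun y => indicator_nonneg (fun y _ => hG0 y) y
  have hFz : ∀ y, y ∉ I ∩ Sη → F y = 0 := fun y hy => indicator_of_notMem hy _
  have hFG : ∀ y ∈ I ∩ Sη, F y = G y := fun y hy => indicator_of_mem hy _
  have hM0 : 0 ≤ M := (hG0 0).trans (hM 0)
  have hFM : ∀ y, |F y| ≤ M := by
    intro y
    rw [abs_of_nonneg (hF0 y)]
    by_cases hy : y ∈ I ∩ Sη
    · rw [hFG y hy]; exact hM y
    · rw [hFz y hy]; exact hM0
  have hISfin : volume (I ∩ Sη) < ⊤ := lt_of_le_of_lt (measure_mono inter_subset_left) hIfin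
  have hFi : Integrable F := int_bdd hFm hFM hIS hISfin hFz
  set g : ℝ → ℝ := fun y => F y / (y - x₀) with hg
  have hgm : Measurable g := by fun_prop
  have hgi : Integrable g := by
    apply int_bdd hgm (M := M / η) _ hIS hISfin (fun y hy => by simp [hg, hFz y hy])
    intro y
    by_cases hy : y ∈ I ∩ Sη
    · simp only [hg]
      rw [abs_div]
      exact div_le_div₀ hM0 (hFM y) hη hy.2
    · simp only [hg, hFz y hy]
      simp; positivity
  have hJm : MeasurableSet (I' ∩ Sη) := hI'.measurableSet.inter hSm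
  have main : ∀ a : ℝ, 0 < a →
      (∫⁻ x in I' ∩ Sη, ENNReal.ofReal (|x - x₀| ^ (-p) * U x)) *
        (∫⁻ y, ENNReal.ofReal (F y)) ^ p ≤
      ENNReal.ofReal (6 * L) ^ p * (D * (2 ^ (p - 1) *
        ((∫⁻ x, ENNReal.ofReal (|g x| ^ p * U x)) +
        ENNReal.ofReal (|∫ y, g y| ^ p) * ENNReal.ofReal (a ^ (1 - p))))) := by
    intro a ha
    obtain ⟨ψ, hψm, hψi, hψ0, hψs, hψ1, hψn⟩ := lemmaA hp hUm hU0
      (E := Ioo (x₀ - η / 2) (x₀ + η / 2)) measurableSet_Ioo (by simp) ha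
      (by rw [hsing (η / 2) (by positivity)]; exact ENNReal.ofReal_lt_top)
    have hsep : ∀ x ∈ I' ∩ Sη, ∃ ε > 0, ∀ y, |y - x| < ε → g y = 0 ∧ ψ y = 0 := by
      intro x hx
      obtain ⟨ε, hε, hball⟩ := Metric.isOpen_iff.mp hI' x hx.1
      refine ⟨min ε (η / 2), by positivity, fun y hy => ⟨?_, ?_⟩⟩
      · have hyI' : y ∈ I' := hball (by
          rw [Metric.mem_ball, Real.dist_eq]; exact lt_of_lt_of_le hy (min_le_left _ _))
        have : F y = 0 := hFz y fun h => hdisj y hyI' h.1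
        simp [hg, this]
      · apply hψs
        intro h
        have h1 : |y - x| < η / 2 := lt_of_lt_of_le hy (min_le_right _ _)
        have h2 : |y - x₀| < η / 2 := by
          rw [abs_lt]; constructor <;> linarith [h.1, h.2]
        have h3 : η ≤ |x - x₀| := hx.2
        have h4 : |x - x₀| ≤ |y - x| + |y - x₀| := by
          have := abs_sub_le x y x₀
          rw [abs_sub_comm x y] at this; exact this
        linarith
    have hlow : ∀ x ∈ I' ∩ Sη, (∫ y, F y) / (6 * L * |x - x₀|) ≤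
        |∫ y, g y * (1 / (x - y) - ∫ z, ψ z / (x - z))| := by
      intro x hx
      obtain ⟨ε, hε, hz⟩ := hsep x hx
      have h3 : η ≤ |x - x₀| := hx.2
      obtain ⟨z₀, hz₀, hc⟩ := mean_c hψi hψ0 hψ1 (α := x₀ - η / 2) (β := x₀ + η / 2) (x := x)
        (fun z hz => hψs z fun h => hz ⟨h.1.le, h.2.le⟩) (by
          rcases le_abs.mp h3 with h | h
          · left; linarith
          · right; linarith)
      rw [hc]
      obtain ⟨r, hr, hrX⟩ : ∃ r : ℝ, (r = 1 ∨ r = -1) ∧ r * (x - x₀) = |x - x₀| := by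
        rcases le_total 0 (x - x₀) with h | h
        · exact ⟨1, Or.inl rfl, by rw [abs_of_nonneg h, one_mul]⟩
        · exact ⟨-1, Or.inr rfl, by rw [abs_of_nonpos h]; ring⟩
      have hint : ∫ y, F y / (6 * L * |x - x₀|) = (∫ y, F y) / (6 * L * |x - x₀|) :=
        integral_div _ _
      rw [← hint]
      refine low (s := s * r) hgi (hFi.div_const _) hε (fun y hy => (hz y hy).1) ?_ ?_
      · rcases hs with h | h <;> rcases hr with h' | h' <;> rw [h, h'] <;> simp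
      · intro y
        by_cases hy : y ∈ I ∩ Sη
        · have hk := kerI (L := L) (X := x - x₀) (Y := y - x₀) (Z := z₀ - x₀) (d := x - y)
            (η := η) (s := s) (r := r) hL hη hrX h3 hy.2
            (by rw [abs_le]; constructor <;> linarith [hz₀.1, hz₀.2]) (by ring) hs hr
            (hadj x hx.1 y hy.1).1 (hadj x hx.1 y hy.1).2
          have e1 : x - x₀ - (z₀ - x₀) = x - z₀ := by ring
          rw [e1] at hk
          calc F y / (6 * L * |x - x₀|) = F y * (1 / (6 * L * |x - x₀|)) := by ring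
            _ ≤ F y * (s * r * (1 / (y - x₀) * (1 / (x - y) - 1 / (x - z₀)))) := by
              gcongr; exact hF0 y
            _ = _ := by simp only [hg]; ring
        · simp [hg, hFz y hy]
    have h1 := core hp hUm hU0 hG (v := fun x => |x - x₀|) (J := I' ∩ Sη)
      (fun x hx => lt_of_lt_of_le hη hx.2) hgm hψm hgi hψi hψ1 hFi hF0 hJm hsep
      (B := 6 * L) (by positivity) hlow
    refine h1.trans ?_
    gcongr
  have hc : (2 : ℝ≥0∞) ^ (p - 1) ≠ ⊤ := ENNReal.rpow_ne_top_of_nonneg (by linarith) (by simp)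
  have h2 := lim_small hp hc hD ENNReal.ofReal_ne_top
    (ENNReal.rpow_ne_top_of_nonneg hp0.le ENNReal.ofReal_ne_top) main
  have h3 : ∫⁻ y, ENNReal.ofReal (F y) = ∫⁻ y in I ∩ Sη, ENNReal.ofReal (G y) := by
    rw [← lintegral_indicator hIS]
    apply lintegral_congr
    intro y
    by_cases hy : y ∈ I ∩ Sη
    · rw [indicator_of_mem hy, hFG y hy]
    · rw [indicator_of_notMem hy, hFz y hy, ENNReal.ofReal_zero]
  rw [h3] at h2
  have h4 : ∫⁻ x, ENNReal.ofReal (|g x| ^ p * U x) ≤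
      ∫⁻ x in I, ENNReal.ofReal (G x ^ p * (|x - x₀| ^ (-p) * U x)) := by
    rw [← lintegral_indicator hI]
    apply lintegral_mono
    intro y
    by_cases hy : y ∈ I ∩ Sη
    · simp only
      rw [indicator_of_mem hy.1]
      apply le_of_eq
      congr 1
      have hy0 : 0 < |y - x₀| := lt_of_lt_of_le hη hy.2
      simp only [hg]
      rw [abs_div, abs_of_nonneg (hF0 y), hFG y hy, Real.div_rpow (hG0 y) hy0.le,
        Real.rpow_neg hy0.le]
      ring
    · simp only [hg, hFz y hy, zero_div, abs_zero]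
      rw [Real.zero_rpow hp0.ne', zero_mul, ENNReal.ofReal_zero]
      exact zero_le
  calc _ ≤ _ := h2
    _ ≤ ENNReal.ofReal (6 * L) ^ p * (D * (2 ^ (p - 1) *
        ∫⁻ x in I, ENNReal.ofReal (G x ^ p * (|x - x₀| ^ (-p) * U x)))) := by gcongr
    _ = _ := by ring

theorem caseI (hp : 1 < p) {D : ℝ≥0∞} (hD : D ≠ ⊤) (hUm : Measurable U)
    (hU0 : ∀ x, 0 ≤ U x) (hG : Good p D U) {x₀ : ℝ}
    (hsing : ∀ η > 0, ∫⁻ x in Ioo (x₀ - η) (x₀ + η), sig p U x = ⊤)
    {I I' : Set ℝ} {L s : ℝ} (hL : 0 < L) (hs : s = 1 ∨ s = -1) (hI : MeasurableSet I)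
    (hIfin : volume I < ⊤) (hI' : IsOpen I') (hdisj : ∀ x ∈ I', x ∉ I)
    (hadj : ∀ x ∈ I', ∀ y ∈ I, 0 < s * (x - y) ∧ s * (x - y) ≤ 2 * L) :
    Hyp p (fun x => |x - x₀| ^ (-p) * U x) I I'
      (ENNReal.ofReal (6 * L) ^ p * (D * 2 ^ (p - 1))) := by
  rintro G hGm hG0 ⟨M, hM⟩
  have hp0 : 0 < p := by linarith
  set Sn : ℕ → Set ℝ := fun n => {x | 1 / ((n : ℝ) + 1) ≤ |x - x₀|} with hSn
  have hSm : ∀ n, MeasurableSet (Sn n) := fun n =>
    measurableSet_le measurable_const (by fun_prop)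
  have hmono : Monotone Sn := by
    intro n m h x hx
    have h1 : (1 : ℝ) / (m + 1) ≤ 1 / (n + 1) := by
      apply one_div_le_one_div_of_le (by positivity)
      have : (n : ℝ) ≤ m := by exact_mod_cast h
      linarith
    exact h1.trans hx
  have hU : ⋃ n, Sn n = {x₀}ᶜ := by
    ext x
    simp only [mem_iUnion, hSn, mem_setOf_eq, mem_compl_iff, mem_singleton_iff]
    constructor
    · rintro ⟨n, h⟩ hx
      rw [hx, sub_self, abs_zero] at h
      have : (0 : ℝ) < 1 / (n + 1) := by positivity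
      linarith
    · intro hx
      obtain ⟨n, hn⟩ := exists_nat_one_div_lt (abs_pos.mpr (sub_ne_zero.mpr hx))
      exact ⟨n, hn.le⟩
  have key : ∀ (A : Set ℝ) (f : ℝ → ℝ≥0∞), MeasurableSet A →
      ∫⁻ x in A, f x = ⨆ n, ∫⁻ x in A ∩ Sn n, f x := by
    intro A f hA
    rw [← setLIntegral_iUnion_of_directed]
    · rw [← inter_iUnion, hU]
      apply setLIntegral_congr
      have : (A ∩ {x₀}ᶜ : Set ℝ) =ᵐ[volume] A := by
        rw [← diff_eq]
        exact diff_null_ae_eq_self (by simp)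
      exact this.symm
    · exact (Monotone.directed_le (fun n m h => inter_subset_inter_right A (hmono h)))
  rw [key I' _ hI'.measurableSet, key I (fun x => ENNReal.ofReal (G x)) hI]
  have e1 : (⨆ n, ∫⁻ x in I ∩ Sn n, ENNReal.ofReal (G x)) ^ p =
      ⨆ n, (∫⁻ x in I ∩ Sn n, ENNReal.ofReal (G x)) ^ p :=
    (ENNReal.orderIsoRpow p hp0).map_iSup _
  rw [e1, ENNReal.iSup_mul]
  apply iSup_le; intro n
  rw [ENNReal.mul_iSup]
  apply iSup_le; intro m
  have h1 := caseI_eta hp hD hUm hU0 hG hsing hL hs hI hIfin hI' hdisj hadj hGm hG0 hM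
    (η := 1 / (((max n m : ℕ) : ℝ) + 1)) (by positivity)
  refine le_trans ?_ h1
  gcongr
  · exact hmono (le_max_left n m)
  · exact hmono (le_max_right n m)

end Pool.Agent.H414R4.MZ
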