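import Pool.Agent.H414R4.MZCases

open MeasureTheory Set Filter Topology
open scoped ENNReal NNReal

namespace Pool.Agent.H414R4.MZ

variable {p : ℝ} {U : ℝ → ℝ}

theorem c_small {ψ : ℝ → ℝ} (hψ : Integrable ψ) (hψ0 : ∀ x, 0 ≤ ψ x) (hψ1 : ∫ y, ψ y = 1)
    {x δ : ℝ} (hδ : 0 < δ) (h : ∀ z, ψ z ≠ 0 → δ ≤ |x - z|) :
    |∫ z, ψ z / (x - z)| ≤ 1 / δ := by
  have h1 : ‖∫ z, ψ z / (x - z)‖ ≤ ∫ z, ψ z / δ := by
    apply norm_integral_le_of_norm_le (hψ.div_const δ)
    filter_upwards with z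
    by_cases hz : ψ z = 0
    · simp [hz]
    · rw [norm_div, Real.norm_of_nonneg (hψ0 z), Real.norm_eq_abs]
      exact div_le_div_of_nonneg_left (hψ0 z) hδ (h z hz)
  rw [integral_div, hψ1] at h1
  exact h1

/-- Case of a dual weight not integrable at infinity. -/
theorem caseII (hp : 1 < p) {D : ℝ≥0∞} (hD : D ≠ ⊤) (hUm : Measurable U)
    (hU0 : ∀ x, 0 ≤ U x) (hG : Good p D U)
    (hinf : ∀ R a : ℝ, 0 < a → ∃ E : Set ℝ, MeasurableSet E ∧ volume E < ⊤ ∧
      (∀ x ∈ E, R ≤ |x|) ∧ ENNReal.ofReal a < ∫⁻ x in E, sig p U x)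
    {I I' : Set ℝ} {L s R₀ : ℝ} (hL : 0 < L) (hs : s = 1 ∨ s = -1) (hI : MeasurableSet I)
    (hIfin : volume I < ⊤) (hI' : IsOpen I') (hdisj : ∀ x ∈ I', x ∉ I)
    (hbd : ∀ x ∈ I', |x| ≤ R₀)
    (hadj : ∀ x ∈ I', ∀ y ∈ I, 0 < s * (x - y) ∧ s * (x - y) ≤ 2 * L) :
    Hyp p U I I' (ENNReal.ofReal (4 * L) ^ p * (D * 2 ^ (p - 1))) := by
  rintro G hGm hG0 ⟨M, hM⟩
  have hp0 : 0 < p := by linarith
  set F : ℝ → ℝ := I.indicator G with hF
  have hFm : Measurable F := hGm.indicator hI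
  have hF0 : ∀ y, 0 ≤ F y := fun y => indicator_nonneg (fun y _ => hG0 y) y
  have hFz : ∀ y, y ∉ I → F y = 0 := fun y hy => indicator_of_notMem hy _
  have hFG : ∀ y ∈ I, F y = G y := fun y hy => indicator_of_mem hy _
  have hM0 : 0 ≤ M := (hG0 0).trans (hM 0)
  have hFM : ∀ y, |F y| ≤ M := by
    intro y
    rw [abs_of_nonneg (hF0 y)]
    by_cases hy : y ∈ I
    · rw [hFG y hy]; exact hM y
    · rw [hFz y hy]; exact hM0
  have hFi : Integrable F := int_bdd hFm hFM hI hIfin hFz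
  have main : ∀ a : ℝ, 0 < a →
      (∫⁻ x in I', ENNReal.ofReal (U x)) * (∫⁻ y, ENNReal.ofReal (F y)) ^ p ≤
      ENNReal.ofReal (4 * L) ^ p * (D * (2 ^ (p - 1) *
        ((∫⁻ x, ENNReal.ofReal (|F x| ^ p * U x)) +
        ENNReal.ofReal (|∫ y, F y| ^ p) * ENNReal.ofReal (a ^ (1 - p))))) := by
    intro a ha
    obtain ⟨E, hEm, hEfin, hER, hEa⟩ := hinf (R₀ + 4 * L) a ha
    obtain ⟨ψ, hψm, hψi, hψ0, hψs, hψ1, hψn⟩ := lemmaA hp hUm hU0 hEm hEfin ha hEa
    have hψd : ∀ x ∈ I', ∀ z, ψ z ≠ 0 → 4 * L ≤ |x - z| := by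
      intro x hx z hz
      have hzE : z ∈ E := by by_contra h; exact hz (hψs z h)
      have h1 := hER z hzE
      have h2 := hbd x hx
      have h3 : |z| ≤ |x - z| + |x| := by
        have := abs_sub_abs_le_abs_sub z x
        rw [abs_sub_comm z x] at this; linarith
      linarith
    have hsep : ∀ x ∈ I', ∃ ε > 0, ∀ y, |y - x| < ε → F y = 0 ∧ ψ y = 0 := by
      intro x hx
      obtain ⟨ε, hε, hball⟩ := Metric.isOpen_iff.mp hI' x hx
      refine ⟨min ε (4 * L), by positivity, fun y hy => ⟨?_, ?_⟩⟩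
      · have hyI' : y ∈ I' := hball (by
          rw [Metric.mem_ball, Real.dist_eq]; exact lt_of_lt_of_le hy (min_le_left _ _))
        exact hFz y fun h => hdisj y hyI' h
      · by_contra h
        have h1 := hψd x hx y h
        rw [abs_sub_comm] at h1
        have h2 := min_le_right ε (4 * L)
        linarith
    have hlow : ∀ x ∈ I', (∫ y, F y) / (4 * L * 1) ≤
        |∫ y, F y * (1 / (x - y) - ∫ z, ψ z / (x - z))| := by
      intro x hx
      obtain ⟨ε, hε, hz⟩ := hsep x hx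
      have hcs := c_small hψi hψ0 hψ1 (δ := 4 * L) (by positivity) (hψd x hx)
      set c := ∫ z, ψ z / (x - z) with hc
      rw [← integral_div]
      refine low (s := s) hFi (hFi.div_const _) hε (fun y hy => (hz y hy).1) ?_ ?_
      · rcases hs with h | h <;> rw [h] <;> simp
      · intro y
        by_cases hy : y ∈ I
        · obtain ⟨h1, h2⟩ := hadj x hx y hy
          have h3 : 1 / (2 * L) ≤ s * (1 / (x - y)) := by
            have e : s * (1 / (x - y)) = 1 / (s * (x - y)) := by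
              rcases hs with h | h <;> rw [h]
              · simp
              · rw [neg_one_mul, neg_one_mul, ← one_div_neg_eq_neg_one_div]
            rw [e]
            exact one_div_le_one_div_of_le h1 h2
          have h4 : s * c ≤ 1 / (4 * L) := by
            have h5 := abs_le.mp hcs
            rcases hs with h | h <;> rw [h] <;> linarith [h5.1, h5.2]
          have h6 : 1 / (4 * L * 1) ≤ s * (1 / (x - y) - c) := by
            have : 1 / (2 * L) - 1 / (4 * L) = 1 / (4 * L * 1) := by field_simp; norm_num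
            rw [mul_sub]; linarith
          calc F y / (4 * L * 1) = F y * (1 / (4 * L * 1)) := by ring
            _ ≤ F y * (s * (1 / (x - y) - c)) := by gcongr; exact hF0 y
            _ = _ := by ring
        · simp [hFz y hy]
    have h1 := core hp hUm hU0 hG (v := fun _ => 1) (J := I') (fun x hx => one_pos)
      hFm hψm hFi hψi hψ1 hFi hF0 hI'.measurableSet hsep (B := 4 * L) (by positivity) hlow
    simp only [Real.one_rpow, one_mul] at h1
    refine h1.trans ?_
    gcongr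
  have hc : (2 : ℝ≥0∞) ^ (p - 1) ≠ ⊤ := ENNReal.rpow_ne_top_of_nonneg (by linarith) (by simp)
  have h2 := lim_small hp hc hD ENNReal.ofReal_ne_top
    (ENNReal.rpow_ne_top_of_nonneg hp0.le ENNReal.ofReal_ne_top) main
  have h3 : ∫⁻ y, ENNReal.ofReal (F y) = ∫⁻ y in I, ENNReal.ofReal (G y) := by
    rw [← lintegral_indicator hI]
    apply lintegral_congr
    intro y
    by_cases hy : y ∈ I
    · rw [indicator_of_mem hy, hFG y hy]
    · rw [indicator_of_notMem hy, hFz y hy, ENNReal.ofReal_zero]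
  rw [h3] at h2
  have h4 : ∫⁻ x, ENNReal.ofReal (|F x| ^ p * U x) =
      ∫⁻ x in I, ENNReal.ofReal (G x ^ p * U x) := by
    rw [← lintegral_indicator hI]
    apply lintegral_congr
    intro y
    by_cases hy : y ∈ I
    · rw [indicator_of_mem hy, hFG y hy, abs_of_nonneg (hG0 y)]
    · rw [indicator_of_notMem hy, hFz y hy, abs_zero, Real.zero_rpow hp0.ne', zero_mul,
        ENNReal.ofReal_zero]
  rw [h4] at h2
  calc _ ≤ _ := h2
    _ = _ := by ring

/-- The common part of the case of an integrable dual weight. -/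
theorem coreIII (hp : 1 < p) {D : ℝ≥0∞} (hUm : Measurable U)
    (hU0 : ∀ x, 0 ≤ U x) (hG : Good p D U) (hS : ∫⁻ x, sig p U x ≠ ⊤) {P : ℝ≥0∞}
    {J I : Set ℝ} {ψ F : ℝ → ℝ} (hψm : Measurable ψ)
    (hψ : Integrable ψ) (hψ1 : ∫ y, ψ y = 1) (hψn : ∫⁻ x, ENNReal.ofReal (|ψ x| ^ p * U x) ≤ P)
    (hFm : Measurable F) (hF0 : ∀ y, 0 ≤ F y) {M : ℝ} (hFM : ∀ y, |F y| ≤ M)
    (hI : MeasurableSet I) (hIfin : volume I < ⊤) (hFz : ∀ y, y ∉ I → F y = 0)
    (hJ : MeasurableSet J)
    (hsep : ∀ x ∈ J, ∃ ε > 0, ∀ y, |y - x| < ε → F y = 0 ∧ ψ y = 0)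
    {B : ℝ} (hB : 0 < B)
    (hlow : ∀ x ∈ J, (∫ y, F y) / (B * (1 + |x|)) ≤
      |∫ y, (F y / (1 + |y|)) * (1 / (x - y) - ∫ z, ψ z / (x - z))|) :
    (∫⁻ x in J, ENNReal.ofReal ((1 + |x|) ^ (-p) * U x)) * (∫⁻ y, ENNReal.ofReal (F y)) ^ p ≤
      (ENNReal.ofReal B ^ p * (D * (2 ^ (p - 1) * (1 + (∫⁻ x, sig p U x) ^ (p - 1) * P)))) *
        ∫⁻ x, ENNReal.ofReal (F x ^ p * ((1 + |x|) ^ (-p) * U x)) := by
  have hp0 : 0 < p := by linarith
  have hFi : Integrable F := int_bdd hFm hFM hI hIfin hFz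
  set g : ℝ → ℝ := fun y => F y / (1 + |y|) with hg
  have hgm : Measurable g := by fun_prop
  have hg0 : ∀ y, 0 ≤ g y := fun y => div_nonneg (hF0 y) (by positivity)
  have hgi : Integrable g := by
    apply int_bdd hgm (M := M) _ hI hIfin (fun y hy => by simp [hg, hFz y hy])
    intro y
    simp only [hg]
    rw [abs_div, abs_of_nonneg (a := 1 + |y|) (by positivity)]
    have : |F y| / (1 + |y|) ≤ |F y| := by
      apply div_le_self (abs_nonneg _)
      have := abs_nonneg y; linarith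
    exact this.trans (hFM y)
  have h1 := core hp hUm hU0 hG (v := fun x => 1 + |x|) (J := J) (fun x hx => by positivity)
      hgm hψm hgi hψ hψ1 hFi hF0 hJ (fun x hx => by
        obtain ⟨ε, hε, h⟩ := hsep x hx
        exact ⟨ε, hε, fun y hy => ⟨by simp [hg, (h y hy).1], (h y hy).2⟩⟩) (B := B) hB hlow
  set X := ∫⁻ x, ENNReal.ofReal (|g x| ^ p * U x) with hX
  have hXeq : X = ∫⁻ x, ENNReal.ofReal (F x ^ p * ((1 + |x|) ^ (-p) * U x)) := by
    rw [hX]
    apply lintegral_congr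
    intro x
    congr 1
    simp only [hg]
    rw [abs_of_nonneg (div_nonneg (hF0 x) (by positivity)), Real.div_rpow (hF0 x) (by positivity),
      Real.rpow_neg (by positivity)]
    ring
  have hY : ENNReal.ofReal (|∫ y, g y| ^ p) ≤ X * (∫⁻ x, sig p U x) ^ (p - 1) := by
    have h2 := holder hp hUm (E := univ) hgm hg0 (by simpa using hS)
    simp only [Measure.restrict_univ] at h2
    rw [← ofReal_integral_eq_lintegral_ofReal hgi (by filter_upwards with y; exact hg0 y)] at h2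
    have h3 : 0 ≤ ∫ y, g y := integral_nonneg hg0
    rw [abs_of_nonneg h3, ← ENNReal.ofReal_rpow_of_nonneg h3 hp0.le]
    refine h2.trans (le_of_eq ?_)
    congr 1
    rw [hX]
    apply lintegral_congr
    intro x
    rw [abs_of_nonneg (hg0 x)]
  rw [← hXeq]
  calc _ ≤ _ := h1
    _ ≤ ENNReal.ofReal B ^ p * (D * (2 ^ (p - 1) *
        (X + (X * (∫⁻ x, sig p U x) ^ (p - 1)) * P))) := by gcongr
    _ = _ := by ring

theorem unitψ (hp : 1 < p) (U : ℝ → ℝ) (β : ℝ) {R : Set ℝ} (hβ : Icc β (β + 1) ⊆ R) :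
    Measurable ((Icc β (β + 1)).indicator (fun _ => (1 : ℝ))) ∧
    Integrable ((Icc β (β + 1)).indicator (fun _ => (1 : ℝ))) ∧
    ∫ x, (Icc β (β + 1)).indicator (fun _ => (1 : ℝ)) x = 1 ∧
    ∫⁻ x, ENNReal.ofReal (|(Icc β (β + 1)).indicator (fun _ => (1 : ℝ)) x| ^ p * U x) ≤
      ∫⁻ x in R, ENNReal.ofReal (U x) := by
  refine ⟨measurable_const.indicator measurableSet_Icc, ?_, ?_, ?_⟩
  · rw [integrable_indicator_iff measurableSet_Icc]
    exact integrableOn_const (by simp)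
  · rw [integral_indicator measurableSet_Icc]
    simp
  · calc _ = ∫⁻ x, (Icc β (β + 1)).indicator (fun x => ENNReal.ofReal (U x)) x := by
          apply lintegral_congr
          intro x
          by_cases hx : x ∈ Icc β (β + 1)
          · rw [indicator_of_mem hx, indicator_of_mem hx]; simp
          · rw [indicator_of_notMem hx, indicator_of_notMem hx, abs_zero,
              Real.zero_rpow (by linarith)]
            simp
      _ = ∫⁻ x in Icc β (β + 1), ENNReal.ofReal (U x) := lintegral_indicator measurableSet_Icc _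
      _ ≤ _ := lintegral_mono_set hβ

end Pool.Agent.H414R4.MZ
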