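import Pool.Agent.H414R4.MZDual

open MeasureTheory Set Filter Topology
open scoped ENNReal NNReal

namespace Pool.Agent.H414R4.MZ

variable {p : ℝ} {U : ℝ → ℝ}

/-- testing inequality for a pair of sets -/
def Hyp (p : ℝ) (w : ℝ → ℝ) (I I' : Set ℝ) (T : ℝ≥0∞) : Prop :=
  ∀ G : ℝ → ℝ, Measurable G → (∀ x, 0 ≤ G x) → (∃ M, ∀ x, G x ≤ M) →
    (∫⁻ x in I', ENNReal.ofReal (w x)) * (∫⁻ x in I, ENNReal.ofReal (G x)) ^ p ≤
      T * ∫⁻ x in I, ENNReal.ofReal (G x ^ p * w x)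

theorem Hyp.double {w : ℝ → ℝ} (hp : 1 < p) {I I' : Set ℝ} {C : ℝ≥0∞} {L : ℝ} (hL : 0 < L)
    (hvol : volume I = ENNReal.ofReal L) (h : Hyp p w I I' (C * ENNReal.ofReal L ^ p)) :
    ∫⁻ x in I', ENNReal.ofReal (w x) ≤ C * ∫⁻ x in I, ENNReal.ofReal (w x) := by
  have h1 := h (fun _ => 1) measurable_const (fun _ => zero_le_one) ⟨1, fun _ => le_rfl⟩
  simp only [ENNReal.ofReal_one, lintegral_const, one_mul, Measure.restrict_apply MeasurableSet.univ,
    univ_inter, Real.one_rpow] at h1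
  rw [hvol] at h1
  have hLp0 : ENNReal.ofReal L ^ p ≠ 0 := by
    have : 0 < ENNReal.ofReal L := ENNReal.ofReal_pos.mpr hL
    exact (ENNReal.rpow_pos this ENNReal.ofReal_ne_top).ne'
  have hLpt : ENNReal.ofReal L ^ p ≠ ⊤ :=
    ENNReal.rpow_ne_top_of_nonneg (by linarith) ENNReal.ofReal_ne_top
  have h2 : (∫⁻ x in I', ENNReal.ofReal (w x)) * ENNReal.ofReal L ^ p ≤
      (C * ∫⁻ x in I, ENNReal.ofReal (w x)) * ENNReal.ofReal L ^ p := by
    calc _ ≤ _ := h1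
      _ = _ := by ring
  exact (ENNReal.mul_le_mul_iff_left hLp0 hLpt).mp h2

/-- from testing inequalities in both directions to the `A_p` bound -/
theorem Ap_of_pair {w : ℝ → ℝ} (hp : 1 < p) (hwm : Measurable w) (hw0 : ∀ x, 0 ≤ w x)
    {I I' : Set ℝ} {C : ℝ≥0∞} {L : ℝ} (hL : 0 < L)
    (hI : volume I = ENNReal.ofReal L) (hI' : volume I' = ENNReal.ofReal L)
    (h : Hyp p w I I' (C * ENNReal.ofReal L ^ p)) (h' : Hyp p w I' I (C * ENNReal.ofReal L ^ p)) :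
    (∫⁻ x in I, ENNReal.ofReal (w x)) * (∫⁻ x in I, sig p w x) ^ (p - 1) ≤
      C * C * ENNReal.ofReal L ^ p := by
  have h1 := Hyp.double hp hL hI' h'
  have h2 := pair_Ap hp hwm hw0 (by rw [hI]; exact ENNReal.ofReal_lt_top) h
  calc _ ≤ (C * ∫⁻ x in I', ENNReal.ofReal (w x)) * (∫⁻ x in I, sig p w x) ^ (p - 1) := by gcongr
    _ = C * ((∫⁻ x in I', ENNReal.ofReal (w x)) * (∫⁻ x in I, sig p w x) ^ (p - 1)) := by ring
    _ ≤ C * (C * ENNReal.ofReal L ^ p) := by gcongr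
    _ = _ := by ring

theorem low {g h : ℝ → ℝ} (hg : Integrable g) (hh : Integrable h) {x ε c s : ℝ} (hε : 0 < ε)
    (h0 : ∀ y, |y - x| < ε → g y = 0) (hs : |s| = 1)
    (hle : ∀ y, h y ≤ s * (g y * (1 / (x - y) - c))) :
    ∫ y, h y ≤ |∫ y, g y * (1 / (x - y) - c)| := by
  have hi : Integrable (fun y => g y * (1 / (x - y) - c)) := by
    have : (fun y => g y * (1 / (x - y) - c)) = fun y => g y / (x - y) - g y * c := by
      funext y; ring
    rw [this]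
    exact (int_div hg hε h0).sub (hg.mul_const c)
  calc ∫ y, h y ≤ ∫ y, s * (g y * (1 / (x - y) - c)) := integral_mono hh (hi.const_mul s) hle
    _ = s * ∫ y, g y * (1 / (x - y) - c) := integral_const_mul _ _
    _ ≤ |s * ∫ y, g y * (1 / (x - y) - c)| := le_abs_self _
    _ = _ := by rw [abs_mul, hs, one_mul]

theorem core (hp : 1 < p) {D : ℝ≥0∞} (hUm : Measurable U)
    (hU0 : ∀ x, 0 ≤ U x) (hG : Good p D U) {v : ℝ → ℝ} {J : Set ℝ} (hv : ∀ x ∈ J, 0 < v x)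
    {g ψ F : ℝ → ℝ} (hgm : Measurable g) (hψm : Measurable ψ)
    (hg : Integrable g) (hψ : Integrable ψ) (hψ1 : ∫ y, ψ y = 1)
    (hF : Integrable F) (hF0 : ∀ y, 0 ≤ F y)
    (hJ : MeasurableSet J)
    (hsep : ∀ x ∈ J, ∃ ε > 0, ∀ y, |y - x| < ε → g y = 0 ∧ ψ y = 0)
    {B : ℝ} (hB : 0 < B)
    (hlow : ∀ x ∈ J, (∫ y, F y) / (B * v x) ≤
      |∫ y, g y * (1 / (x - y) - ∫ z, ψ z / (x - z))|) :
    (∫⁻ x in J, ENNReal.ofReal (v x ^ (-p) * U x)) * (∫⁻ y, ENNReal.ofReal (F y)) ^ p ≤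
      ENNReal.ofReal B ^ p * (D * (2 ^ (p - 1) * ((∫⁻ x, ENNReal.ofReal (|g x| ^ p * U x)) +
        ENNReal.ofReal (|∫ y, g y| ^ p) * ∫⁻ x, ENNReal.ofReal (|ψ x| ^ p * U x)))) := by
  have hp0 : 0 < p := by linarith
  have hM0 : 0 ≤ ∫ y, F y := integral_nonneg hF0
  have h1 := test hp hUm hU0 hG hgm hψm hg hψ hψ1 hJ hsep (κ := fun x => (∫ y, F y) / (B * v x))
    (fun x hx => div_nonneg hM0 (mul_nonneg hB.le (hv x hx).le)) hlow
  have h2 : ∫⁻ x in J, ENNReal.ofReal (((∫ y, F y) / (B * v x)) ^ p * U x) =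
      ENNReal.ofReal (((∫ y, F y) / B) ^ p) * ∫⁻ x in J, ENNReal.ofReal (v x ^ (-p) * U x) := by
    rw [← lintegral_const_mul' _ _ ENNReal.ofReal_ne_top]
    apply setLIntegral_congr_fun hJ
    intro x hx
    have hvx := hv x hx
    simp only
    rw [← ENNReal.ofReal_mul (by positivity)]
    congr 1
    rw [← div_div, Real.div_rpow (by positivity) hvx.le, Real.rpow_neg hvx.le]
    ring
  rw [h2] at h1
  have h3 : ∫⁻ y, ENNReal.ofReal (F y) = ENNReal.ofReal (∫ y, F y) :=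
    (ofReal_integral_eq_lintegral_ofReal hF (by filter_upwards with y; exact hF0 y)).symm
  rw [h3]
  have h4 : ENNReal.ofReal (∫ y, F y) ^ p =
      ENNReal.ofReal B ^ p * ENNReal.ofReal (((∫ y, F y) / B) ^ p) := by
    rw [ENNReal.ofReal_rpow_of_nonneg hM0 hp0.le, ENNReal.ofReal_rpow_of_nonneg hB.le hp0.le,
      ← ENNReal.ofReal_mul (by positivity), ← Real.mul_rpow hB.le (by positivity)]
    congr 2
    field_simp
  rw [h4]
  calc _ = ENNReal.ofReal B ^ p * (ENNReal.ofReal (((∫ y, F y) / B) ^ p) *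
        ∫⁻ x in J, ENNReal.ofReal (v x ^ (-p) * U x)) := by ring
    _ ≤ _ := by gcongr

/-- a bounded measurable function supported in a set of finite measure is integrable -/
theorem int_bdd {F : ℝ → ℝ} (hFm : Measurable F) {M : ℝ} (hM : ∀ x, |F x| ≤ M) {I : Set ℝ}
    (hI : MeasurableSet I) (hIfin : volume I < ⊤) (hF : ∀ x, x ∉ I → F x = 0) : Integrable F := by
  have h1 : F = I.indicator F := by
    funext x
    by_cases hx : x ∈ I
    · rw [indicator_of_mem hx]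
    · rw [indicator_of_notMem hx, hF x hx]
  rw [h1, integrable_indicator_iff hI]
  exact Measure.integrableOn_of_bounded (M := M) hIfin.ne hFm.aestronglyMeasurable
    (by filter_upwards with x; rw [Real.norm_eq_abs]; exact hM x)

/-- letting the weighted norm of the compensating function tend to `0` -/
theorem lim_small (hp : 1 < p) {Q X Y c D : ℝ≥0∞} (hc : c ≠ ⊤) (hD : D ≠ ⊤) (hY : Y ≠ ⊤)
    {B : ℝ≥0∞} (hB : B ≠ ⊤)
    (h : ∀ a : ℝ, 0 < a → Q ≤ B * (D * (c * (X + Y * ENNReal.ofReal (a ^ (1 - p)))))) :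
    Q ≤ B * (D * (c * X)) := by
  have h1 : Tendsto (fun a : ℝ => ENNReal.ofReal (a ^ (1 - p))) atTop (𝓝 0) := by
    have : Tendsto (fun a : ℝ => a ^ (1 - p)) atTop (𝓝 0) := by
      have := tendsto_rpow_neg_atTop (y := p - 1) (by linarith)
      simpa [neg_sub] using this
    have h2 := (ENNReal.continuous_ofReal.tendsto 0).comp this
    simpa [Function.comp_def] using h2
  have h2 : Tendsto (fun a : ℝ => B * (D * (c * (X + Y * ENNReal.ofReal (a ^ (1 - p)))))) atTop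
      (𝓝 (B * (D * (c * (X + Y * 0))))) := by
    refine ENNReal.Tendsto.const_mul (ENNReal.Tendsto.const_mul (ENNReal.Tendsto.const_mul
      (tendsto_const_nhds.add (ENNReal.Tendsto.const_mul h1 (Or.inr hY))) (Or.inr hc))
      (Or.inr hD)) (Or.inr hB)
  rw [mul_zero, add_zero] at h2
  refine ge_of_tendsto h2 ?_
  filter_upwards [eventually_gt_atTop (0:ℝ)] with a ha
  exact h a ha

end Pool.Agent.H414R4.MZ
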