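import Pool.Agent.H414R4.MZBase

/-!
Dual weights: truncations, test functions concentrated where the dual weight is large, Hölder's
inequality, and the passage from a testing inequality on a pair of sets to an `A_p` bound.
-/

open MeasureTheory Set Filter Topology
open scoped ENNReal NNReal

namespace Pool.Agent.H414R4.MZ

/-- truncated dual weight -/
noncomputable def hn (p : ℝ) (U : ℝ → ℝ) (n : ℕ) (x : ℝ) : ℝ :=
  (U x + 1 / (n + 1)) ^ (-(1 / (p - 1)))

variable {p : ℝ} {U : ℝ → ℝ}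

theorem hn_pos (hU0 : ∀ x, 0 ≤ U x) (n : ℕ) (x : ℝ) : 0 < hn p U n x := by
  unfold hn
  have : 0 < U x + 1 / ((n : ℝ) + 1) := by have := hU0 x; positivity
  exact Real.rpow_pos_of_pos this _

theorem hn_meas (hUm : Measurable U) (n : ℕ) : Measurable (hn p U n) := by
  unfold hn; fun_prop

theorem hn_mono (hp : 1 < p) (hU0 : ∀ x, 0 ≤ U x) {n m : ℕ} (h : n ≤ m) (x : ℝ) :
    hn p U n x ≤ hn p U m x := by
  unfold hn
  have h0 := hU0 x
  apply Real.rpow_le_rpow_of_nonpos
  · positivity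
  · have : (1 : ℝ) / (m + 1) ≤ 1 / (n + 1) := by
      apply one_div_le_one_div_of_le (by positivity)
      have : (n : ℝ) ≤ m := by exact_mod_cast h
      linarith
    linarith
  · have : 0 < 1 / (p - 1) := by apply one_div_pos.mpr; linarith
    linarith

theorem hn_le (hp : 1 < p) (hU0 : ∀ x, 0 ≤ U x) (n : ℕ) (x : ℝ) :
    hn p U n x ≤ (1 / ((n : ℝ) + 1)) ^ (-(1 / (p - 1))) := by
  unfold hn
  have h0 := hU0 x
  apply Real.rpow_le_rpow_of_nonpos
  · positivity
  · linarith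
  · have : 0 < 1 / (p - 1) := by apply one_div_pos.mpr; linarith
    linarith

theorem hn_key (hp : 1 < p) (hU0 : ∀ x, 0 ≤ U x) (n : ℕ) (x : ℝ) :
    hn p U n x ^ p * U x ≤ hn p U n x := by
  have h0 := hU0 x
  have hpos := hn_pos (p := p) hU0 n x
  have hb : 0 < U x + 1 / ((n : ℝ) + 1) := by positivity
  have h1 : hn p U n x ^ (p - 1) = (U x + 1 / ((n : ℝ) + 1))⁻¹ := by
    unfold hn
    rw [← Real.rpow_mul hb.le, ← Real.rpow_neg_one]
    congr 1
    have : p - 1 ≠ 0 := by linarith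
    field_simp
  have h2 : hn p U n x ^ p = hn p U n x ^ (p - 1) * hn p U n x := by
    rw [← Real.rpow_add_one hpos.ne']; congr 1; ring
  rw [h2, h1]
  have h3 : (U x + 1 / ((n : ℝ) + 1))⁻¹ * U x ≤ 1 := by
    rw [inv_mul_le_iff₀ hb]
    have : (0 : ℝ) < 1 / (n + 1) := by positivity
    linarith
  calc (U x + 1 / ((n : ℝ) + 1))⁻¹ * hn p U n x * U x
      = ((U x + 1 / ((n : ℝ) + 1))⁻¹ * U x) * hn p U n x := by ring
    _ ≤ 1 * hn p U n x := by gcongr
    _ = _ := one_mul _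

theorem iSup_hn (hp : 1 < p) (hU0 : ∀ x, 0 ≤ U x) (x : ℝ) :
    ⨆ n, ENNReal.ofReal (hn p U n x) = sig p U x := by
  apply iSup_eq_of_tendsto
  · intro n m h
    exact ENNReal.ofReal_le_ofReal (hn_mono hp hU0 h x)
  · have h1 : ∀ n : ℕ, ENNReal.ofReal (hn p U n x) =
        ENNReal.ofReal (U x + 1 / ((n : ℝ) + 1)) ^ (-(1 / (p - 1))) := by
      intro n
      have h0 := hU0 x
      unfold hn
      rw [ENNReal.ofReal_rpow_of_pos (by positivity)]
    simp_rw [h1]
    unfold sig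
    apply (ENNReal.continuous_rpow_const (y := (-(1 / (p - 1))))).continuousAt.tendsto.comp
    apply (ENNReal.continuous_ofReal).continuousAt.tendsto.comp
    have : Tendsto (fun n : ℕ => U x + 1 / ((n : ℝ) + 1)) atTop (𝓝 (U x + 0)) :=
      tendsto_const_nhds.add tendsto_one_div_add_atTop_nhds_zero_nat
    simpa using this

theorem sig_meas (hUm : Measurable U) : Measurable (sig p U) := by
  unfold sig; fun_prop

theorem lint_sig (hp : 1 < p) (hUm : Measurable U) (hU0 : ∀ x, 0 ≤ U x) (E : Set ℝ) :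
    ∫⁻ x in E, sig p U x = ⨆ n, ∫⁻ x in E, ENNReal.ofReal (hn p U n x) := by
  rw [← lintegral_iSup]
  · simp_rw [iSup_hn hp hU0]
  · intro n; exact (hn_meas hUm n).ennreal_ofReal
  · intro n m h x
    exact ENNReal.ofReal_le_ofReal (hn_mono hp hU0 h x)

theorem lint_hn_lt (hp : 1 < p) (hU0 : ∀ x, 0 ≤ U x) {E : Set ℝ}
    (hE : volume E < ⊤) (n : ℕ) : ∫⁻ x in E, ENNReal.ofReal (hn p U n x) < ⊤ := by
  calc ∫⁻ x in E, ENNReal.ofReal (hn p U n x)
      ≤ ∫⁻ _ in E, ENNReal.ofReal ((1 / ((n : ℝ) + 1)) ^ (-(1 / (p - 1)))) :=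
        lintegral_mono fun x => ENNReal.ofReal_le_ofReal (hn_le hp hU0 n x)
    _ = _ := by rw [setLIntegral_const]
    _ < ⊤ := ENNReal.mul_lt_top ENNReal.ofReal_lt_top hE

/-- test functions with small weighted norm where the dual weight has large mass -/
theorem lemmaA (hp : 1 < p) (hUm : Measurable U) (hU0 : ∀ x, 0 ≤ U x) {E : Set ℝ}
    (hE : MeasurableSet E) (hEfin : volume E < ⊤) {a : ℝ} (ha : 0 < a)
    (h : ENNReal.ofReal a < ∫⁻ x in E, sig p U x) :
    ∃ ψ : ℝ → ℝ, Measurable ψ ∧ Integrable ψ ∧ (∀ x, 0 ≤ ψ x) ∧ (∀ x, x ∉ E → ψ x = 0) ∧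
      ∫ x, ψ x = 1 ∧ ∫⁻ x, ENNReal.ofReal (|ψ x| ^ p * U x) ≤ ENNReal.ofReal (a ^ (1 - p)) := by
  rw [lint_sig hp hUm hU0] at h
  obtain ⟨n, hn1⟩ := lt_iSup_iff.mp h
  have hfin := lint_hn_lt hp hU0 hEfin n (p := p)
  set A := ∫⁻ x in E, ENNReal.ofReal (hn p U n x) with hA
  set r := A.toReal with hr
  have hrA : ENNReal.ofReal r = A := ENNReal.ofReal_toReal hfin.ne
  have har : a < r := by
    rw [← hrA] at hn1
    exact (ENNReal.ofReal_lt_ofReal_iff_of_nonneg ha.le).mp hn1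
  have hr0 : 0 < r := ha.trans har
  have hhm := hn_meas (p := p) hUm n
  refine ⟨E.indicator (fun x => hn p U n x / r), (hhm.div_const r).indicator hE, ?_, ?_, ?_, ?_, ?_⟩
  · rw [integrable_indicator_iff hE]
    refine Integrable.div_const ?_ r
    refine ⟨hhm.aestronglyMeasurable, ?_⟩
    rw [hasFiniteIntegral_iff_ofReal (by
      filter_upwards with x; exact (hn_pos hU0 n x).le)]
    exact hfin
  · intro x
    apply indicator_nonneg
    intro x _
    exact div_nonneg (hn_pos hU0 n x).le hr0.le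
  · intro x hx
    exact indicator_of_notMem hx _
  · rw [integral_indicator hE, integral_div]
    have : ∫ x in E, hn p U n x = r := by
      rw [integral_eq_lintegral_of_nonneg_ae]
      · filter_upwards with x; exact (hn_pos hU0 n x).le
      · exact hhm.aestronglyMeasurable
    rw [this, div_self hr0.ne']
  · have h1 : ∀ x, ENNReal.ofReal (|E.indicator (fun x => hn p U n x / r) x| ^ p * U x) ≤
        E.indicator (fun x => ENNReal.ofReal (r ^ (-p)) * ENNReal.ofReal (hn p U n x)) x := by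
      intro x
      by_cases hx : x ∈ E
      · rw [indicator_of_mem hx, indicator_of_mem hx, ← ENNReal.ofReal_mul (by positivity)]
        apply ENNReal.ofReal_le_ofReal
        have hpos := hn_pos (p := p) hU0 n x
        rw [abs_of_nonneg (by positivity), Real.div_rpow hpos.le hr0.le, Real.rpow_neg hr0.le,
          div_eq_mul_inv]
        calc hn p U n x ^ p * (r ^ p)⁻¹ * U x = (r ^ p)⁻¹ * (hn p U n x ^ p * U x) := by ring
          _ ≤ (r ^ p)⁻¹ * hn p U n x := by
            gcongr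
            exact hn_key hp hU0 n x
      · rw [indicator_of_notMem hx, indicator_of_notMem hx]
        rw [abs_zero, Real.zero_rpow (by linarith), zero_mul, ENNReal.ofReal_zero]
    calc _ ≤ ∫⁻ x, E.indicator
            (fun x => ENNReal.ofReal (r ^ (-p)) * ENNReal.ofReal (hn p U n x)) x :=
          lintegral_mono h1
      _ = ENNReal.ofReal (r ^ (-p)) * A := by
          rw [lintegral_indicator hE, lintegral_const_mul' _ _ ENNReal.ofReal_ne_top]
      _ = ENNReal.ofReal (r ^ (1 - p)) := by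
          rw [← hrA, ← ENNReal.ofReal_mul (by positivity)]
          congr 1
          rw [← Real.rpow_add_one hr0.ne']; congr 1; ring
      _ ≤ _ := by
          apply ENNReal.ofReal_le_ofReal
          exact Real.rpow_le_rpow_of_nonpos ha har.le (by linarith)

theorem pair_Ap (hp : 1 < p) {w : ℝ → ℝ} (hwm : Measurable w) (hw0 : ∀ x, 0 ≤ w x)
    {I I' : Set ℝ} (hIfin : volume I < ⊤) {T : ℝ≥0∞}
    (h : ∀ G : ℝ → ℝ, Measurable G → (∀ x, 0 ≤ G x) → (∃ M, ∀ x, G x ≤ M) →
      (∫⁻ x in I', ENNReal.ofReal (w x)) * (∫⁻ x in I, ENNReal.ofReal (G x)) ^ p ≤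
        T * ∫⁻ x in I, ENNReal.ofReal (G x ^ p * w x)) :
    (∫⁻ x in I', ENNReal.ofReal (w x)) * (∫⁻ x in I, sig p w x) ^ (p - 1) ≤ T := by
  have hp1 : 0 < p - 1 := by linarith
  rw [lint_sig hp hwm hw0]
  have e1 : (⨆ n, ∫⁻ x in I, ENNReal.ofReal (hn p w n x)) ^ (p - 1) =
      ⨆ n, (∫⁻ x in I, ENNReal.ofReal (hn p w n x)) ^ (p - 1) :=
    (ENNReal.orderIsoRpow (p - 1) hp1).map_iSup _
  rw [e1, ENNReal.mul_iSup]
  apply iSup_le
  intro n
  set A := ∫⁻ x in I, ENNReal.ofReal (hn p w n x) with hA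
  have hfin : A < ⊤ := lint_hn_lt hp hw0 hIfin n
  by_cases hA0 : A = 0
  · rw [hA0, ENNReal.zero_rpow_of_pos hp1, mul_zero]; exact zero_le
  have h1 := h (hn p w n) (hn_meas hwm n) (fun x => (hn_pos hw0 n x).le)
    ⟨_, fun x => hn_le hp hw0 n x⟩
  have h2 : ∫⁻ x in I, ENNReal.ofReal (hn p w n x ^ p * w x) ≤ A :=
    lintegral_mono fun x => ENNReal.ofReal_le_ofReal (hn_key hp hw0 n x)
  have h3 : (∫⁻ x in I', ENNReal.ofReal (w x)) * A ^ (p - 1) * A ≤ T * A := by
    calc (∫⁻ x in I', ENNReal.ofReal (w x)) * A ^ (p - 1) * A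
        = (∫⁻ x in I', ENNReal.ofReal (w x)) * A ^ p := by
          rw [mul_assoc]; congr 1
          have : A ^ p = A ^ ((p - 1) + 1) := by congr 1; ring
          rw [this, ENNReal.rpow_add _ _ hA0 hfin.ne, ENNReal.rpow_one]
      _ ≤ T * ∫⁻ x in I, ENNReal.ofReal (hn p w n x ^ p * w x) := h1
      _ ≤ T * A := by gcongr
  exact (ENNReal.mul_le_mul_iff_left hA0 hfin.ne).mp h3

theorem holder (hp : 1 < p) (hUm : Measurable U) {E : Set ℝ}
    {G : ℝ → ℝ} (hGm : Measurable G) (hG0 : ∀ x, 0 ≤ G x)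
    (hS : ∫⁻ x in E, sig p U x ≠ ⊤) :
    (∫⁻ x in E, ENNReal.ofReal (G x)) ^ p ≤
      (∫⁻ x in E, ENNReal.ofReal (G x ^ p * U x)) * (∫⁻ x in E, sig p U x) ^ (p - 1) := by
  have hp0 : 0 < p := by linarith
  have hp1 : 0 < p - 1 := by linarith
  have hq : p.HolderConjugate (p / (p - 1)) := Real.HolderConjugate.conjExponent hp
  have hq0 : 0 < p / (p - 1) := by positivity
  set f : ℝ → ℝ≥0∞ := fun x => ENNReal.ofReal (G x) * ENNReal.ofReal (U x) ^ (1 / p) with hf
  set g : ℝ → ℝ≥0∞ := fun x => ENNReal.ofReal (U x) ^ (-(1 / p)) with hg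
  have hfm : Measurable f := by fun_prop
  have hgm : Measurable g := by fun_prop
  have h1 := ENNReal.lintegral_mul_le_Lp_mul_Lq (volume.restrict E) hq hfm.aemeasurable
    hgm.aemeasurable
  have hfin : ∀ᵐ x ∂(volume.restrict E), sig p U x < ⊤ := ae_lt_top (sig_meas hUm) hS
  have h2 : ∫⁻ x in E, ENNReal.ofReal (G x) = ∫⁻ x in E, (f * g) x := by
    apply lintegral_congr_ae
    filter_upwards [hfin] with x hx
    have hU : ENNReal.ofReal (U x) ≠ 0 := by
      intro h0
      rw [sig, h0, ENNReal.zero_rpow_of_neg (by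
        have : 0 < 1 / (p - 1) := by positivity
        linarith)] at hx
      exact lt_irrefl _ hx
    simp only [Pi.mul_apply, hf, hg]
    rw [mul_assoc, ← ENNReal.rpow_add _ _ hU ENNReal.ofReal_ne_top]
    simp
  have h3 : ∀ x, f x ^ p = ENNReal.ofReal (G x ^ p * U x) := by
    intro x
    simp only [hf]
    rw [ENNReal.mul_rpow_of_nonneg _ _ hp0.le, ← ENNReal.rpow_mul, one_div_mul_cancel hp0.ne',
      ENNReal.rpow_one, ENNReal.ofReal_rpow_of_nonneg (hG0 x) hp0.le,
      ENNReal.ofReal_mul (Real.rpow_nonneg (hG0 x) _)]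
  have h4 : ∀ x, g x ^ (p / (p - 1)) = sig p U x := by
    intro x
    simp only [hg, sig]
    rw [← ENNReal.rpow_mul]
    congr 1
    field_simp
  simp_rw [h3, h4] at h1
  rw [h2]
  calc (∫⁻ x in E, (f * g) x) ^ p
      ≤ ((∫⁻ x in E, ENNReal.ofReal (G x ^ p * U x)) ^ (1 / p) *
          (∫⁻ x in E, sig p U x) ^ (1 / (p / (p - 1)))) ^ p :=
        ENNReal.rpow_le_rpow h1 hp0.le
    _ = _ := by
        rw [ENNReal.mul_rpow_of_nonneg _ _ hp0.le, ← ENNReal.rpow_mul, ← ENNReal.rpow_mul,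
          one_div_mul_cancel hp0.ne', ENNReal.rpow_one]
        congr 2
        field_simp

end Pool.Agent.H414R4.MZ
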