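import Pool.Agent.H414R4.MZFinal

open MeasureTheory Set Filter Topology
open scoped ENNReal NNReal

namespace Pool.Agent.H414R4.MZ

variable {p : ℝ} {U : ℝ → ℝ}

theorem add_rpow_le' {q : ℝ} (hq : 0 ≤ q) (a b : ℝ≥0∞) :
    (a + b) ^ q ≤ 2 ^ q * (a ^ q + b ^ q) := by
  rcases le_total a b with h | h
  · calc (a + b) ^ q ≤ (2 * b) ^ q := by
          apply ENNReal.rpow_le_rpow _ hq
          rw [two_mul]; gcongr
      _ = 2 ^ q * b ^ q := ENNReal.mul_rpow_of_nonneg _ _ hq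
      _ ≤ _ := by gcongr; exact le_add_self
  · calc (a + b) ^ q ≤ (2 * a) ^ q := by
          apply ENNReal.rpow_le_rpow _ hq
          rw [two_mul]; gcongr
      _ = 2 ^ q * a ^ q := ENNReal.mul_rpow_of_nonneg _ _ hq
      _ ≤ _ := by gcongr; exact le_self_add

theorem half_one (t : ℝ) : half 1 t = Ioo 0 t := by
  ext y; simp only [half, one_mul]; rfl

theorem half_neg_one (t : ℝ) : half (-1) t = Ioo (-t) 0 := by
  ext y
  constructor
  · rintro ⟨h1, h2⟩; constructor <;> linarith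
  · rintro ⟨h1, h2⟩; constructor <;> linarith

theorem caseIII_Ap (hp : 1 < p) {D : ℝ≥0∞} (hUm : Measurable U)
    (hU0 : ∀ x, 0 ≤ U x) (hG : Good p D U) (hS : ∫⁻ x, sig p U x ≠ ⊤) :
    ApBd p (fun x => (1 + |x|) ^ (-p) * U x)
      ((ENNReal.ofReal 8 ^ p * K0 p U D) * (ENNReal.ofReal 8 ^ p * K0 p U D) +
        (2 ^ (p - 1) * (2 * ((ENNReal.ofReal 6 ^ p * (K0 p U D * K1 p U)) *
          (ENNReal.ofReal 6 ^ p * (K0 p U D * K1 p U))) +
          2 * (ENNReal.ofReal 6 ^ p * (K0 p U D * K1 p U)))) * ENNReal.ofReal 24 ^ p) := by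
  intro a L hL
  have hp0 : 0 < p := by linarith
  have hp1 : 0 < p - 1 := by linarith
  set w : ℝ → ℝ := fun x => (1 + |x|) ^ (-p) * U x with hw
  have hwm : Measurable w := by fun_prop
  have hw0 : ∀ x, 0 ≤ w x := fun x => mul_nonneg (by positivity) (hU0 x)
  set C1 := ENNReal.ofReal 8 ^ p * K0 p U D with hC1
  set C2 := ENNReal.ofReal 6 ^ p * (K0 p U D * K1 p U) with hC2
  by_cases hsm : ∀ x ∈ Ioo a (a + 2 * L), 8 * L ≤ 1 + |x|
  · have hside : ∀ c : ℝ, (∀ x ∈ Ioo c (c + L), 8 * L ≤ 1 + |x|) →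
        (∀ x ∈ Ioo c (c + L), -1 ≤ x) ∨ (∀ x ∈ Ioo c (c + L), x ≤ 1) := by
      intro c hc
      by_cases h : c < -1
      · right
        intro x hx
        by_contra hx1
        push Not at hx1
        have := hc 0 ⟨by linarith, by linarith [hx.2]⟩
        rw [abs_zero] at this
        linarith [hx.2]
      · left
        intro x hx
        linarith [hx.1]
    have hB2 : Ioo (a + L) (a + L + L) = Ioo (a + L) (a + 2 * L) := by congr 1; ring
    have sA : ∀ x ∈ Ioo a (a + L), 8 * L ≤ 1 + |x| :=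
      fun x hx => hsm x ⟨hx.1, by linarith [hx.2]⟩
    have sB : ∀ x ∈ Ioo (a + L) (a + 2 * L), 8 * L ≤ 1 + |x| :=
      fun x hx => hsm x ⟨by linarith [hx.1], hx.2⟩
    have h1 := caseIII_small hp hUm hU0 hG hS (I := Ioo a (a + L))
      (I' := Ioo (a + L) (a + 2 * L))
      hL (Or.inl rfl) measurableSet_Ioo (by simp) isOpen_Ioo
      (fun x hx h => by linarith [hx.1, h.2]) (adjA a L) sB
      (by rw [← hB2]; exact hside _ (by rw [hB2]; exact sB))
    have h2 := caseIII_small hp hUm hU0 hG hS (I := Ioo (a + L) (a + 2 * L))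
      (I' := Ioo a (a + L))
      hL (Or.inr rfl) measurableSet_Ioo (by simp) isOpen_Ioo
      (fun x hx h => by linarith [hx.2, h.1]) (adjB a L) sA (hside _ sA)
    rw [scale hp (by norm_num)] at h1 h2
    have h3 := Ap_of_pair hp hwm hw0 hL (by rw [Real.volume_Ioo]; congr 1; ring)
      (by rw [Real.volume_Ioo]; congr 1; ring) h1 h2
    refine h3.trans ?_
    gcongr
    exact le_self_add
  · push Not at hsm
    obtain ⟨x, hx, hxL⟩ := hsm
    set t := 24 * L with ht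
    have hx0 := abs_nonneg x
    have ht3 : 3 ≤ t := by rw [ht]; linarith
    have ht0 : 0 < t := by linarith
    have h1 := caseIII_large hp hUm hU0 hG hS (t := t) (s := 1) ht3 (Or.inl rfl)
    have h2 := caseIII_large hp hUm hU0 hG hS (t := t) (s := -1) ht3 (Or.inr rfl)
    rw [neg_neg] at h2
    rw [mul_assoc, scale hp (by norm_num)] at h1 h2
    have vol : ∀ s : ℝ, (s = 1 ∨ s = -1) → volume (half s t) = ENNReal.ofReal t := by
      rintro s (h | h)
      · rw [h, half_one, Real.volume_Ioo, sub_zero]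
      · rw [h, half_neg_one, Real.volume_Ioo]; congr 1; ring
    have v1 := vol 1 (Or.inl rfl)
    have v2 := vol (-1) (Or.inr rfl)
    have b1 := Ap_of_pair hp hwm hw0 ht0 v1 v2 h1 h2
    have b2 := Ap_of_pair hp hwm hw0 ht0 v2 v1 h2 h1
    have b3 := pair_Ap hp hwm hw0 (by rw [v1]; exact ENNReal.ofReal_lt_top) h1
    have b4 := pair_Ap hp hwm hw0 (by rw [v2]; exact ENNReal.ofReal_lt_top) h2
    have hsub : ∀ f : ℝ → ℝ≥0∞, ∫⁻ x in Ioo a (a + L), f x ≤
        (∫⁻ x in half 1 t, f x) + ∫⁻ x in half (-1) t, f x := by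
      intro f
      refine le_trans (lintegral_mono_set' ?_) (lintegral_union_le f _ _)
      have h0 : ∀ᵐ y : ℝ, y ≠ 0 := by
        rw [ae_iff]; simp
      filter_upwards [h0] with y hy0 hy
      have hy' : y ∈ Ioo a (a + L) := hy
      have hyx : |y - x| ≤ 2 * L := by
        rw [abs_le]; constructor <;> linarith [hx.1, hx.2, hy'.1, hy'.2]
      have hyt : |y| < t := by
        have h3 : |y| ≤ |y - x| + |x| := by
          have := abs_sub_abs_le_abs_sub y x; linarith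
        rw [ht]; linarith
      rw [abs_lt] at hyt
      rcases lt_or_gt_of_ne hy0 with h | h
      · exact Or.inr ⟨by linarith, by linarith⟩
      · exact Or.inl ⟨by linarith, by linarith⟩
    set W1 := ∫⁻ x in half 1 t, ENNReal.ofReal (w x) with hW1
    set W2 := ∫⁻ x in half (-1) t, ENNReal.ofReal (w x) with hW2
    set S1 := ∫⁻ x in half 1 t, sig p w x with hS1
    set S2 := ∫⁻ x in half (-1) t, sig p w x with hS2
    calc (∫⁻ x in Ioo a (a + L), ENNReal.ofReal (w x)) *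
          (∫⁻ x in Ioo a (a + L), sig p w x) ^ (p - 1)
        ≤ (W1 + W2) * (S1 + S2) ^ (p - 1) := by
          gcongr
          · exact hsub _
          · exact hsub _
      _ ≤ (W1 + W2) * (2 ^ (p - 1) * (S1 ^ (p - 1) + S2 ^ (p - 1))) := by
          gcongr; exact add_rpow_le' hp1.le _ _
      _ = 2 ^ (p - 1) * (W1 * S1 ^ (p - 1) + W2 * S2 ^ (p - 1) + W2 * S1 ^ (p - 1) +
            W1 * S2 ^ (p - 1)) := by ring
      _ ≤ 2 ^ (p - 1) * (C2 * C2 * ENNReal.ofReal t ^ p + C2 * C2 * ENNReal.ofReal t ^ p +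
            C2 * ENNReal.ofReal t ^ p + C2 * ENNReal.ofReal t ^ p) := by gcongr
      _ = (2 ^ (p - 1) * (2 * (C2 * C2) + 2 * C2)) * ENNReal.ofReal t ^ p := by ring
      _ = ((2 ^ (p - 1) * (2 * (C2 * C2) + 2 * C2)) * ENNReal.ofReal 24 ^ p) *
            ENNReal.ofReal L ^ p := by
          rw [ht, ENNReal.ofReal_mul (by norm_num), ENNReal.mul_rpow_of_nonneg _ _ hp0.le]
          ring
      _ ≤ _ := by gcongr; exact le_add_self

/-- local finiteness of the dual weight on compact intervals -/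
theorem loc_fin {σ : ℝ → ℝ≥0∞} (h : ∀ x : ℝ, ∃ η > 0, ∫⁻ y in Ioo (x - η) (x + η), σ y ≠ ⊤)
    (a b : ℝ) : ∫⁻ y in Icc a b, σ y < ⊤ := by
  refine IsCompact.induction_on (isCompact_Icc (a := a) (b := b))
    (p := fun s => ∫⁻ y in s, σ y < ⊤) (by simp) ?_ ?_ ?_
  · intro s t hst ht
    exact lt_of_le_of_lt (lintegral_mono_set hst) ht
  · intro s t hs ht
    exact lt_of_le_of_lt (lintegral_union_le _ _ _) (ENNReal.add_lt_top.mpr ⟨hs, ht⟩)
  · intro x _
    obtain ⟨η, hη, hx⟩ := h x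
    exact ⟨Ioo (x - η) (x + η), mem_nhdsWithin_of_mem_nhds
      (Ioo_mem_nhds (by linarith) (by linarith)), lt_top_iff_ne_top.mpr hx⟩

theorem inf_of {σ : ℝ → ℝ≥0∞} (hloc : ∀ a b : ℝ, ∫⁻ y in Icc a b, σ y < ⊤)
    (hS : ∫⁻ y, σ y = ⊤) (R a : ℝ) :
    ∃ E : Set ℝ, MeasurableSet E ∧ volume E < ⊤ ∧
      (∀ x ∈ E, R ≤ |x|) ∧ ENNReal.ofReal a < ∫⁻ x in E, σ x := by
  set A : Set ℝ := {x | R ≤ |x|} with hA
  have hAm : MeasurableSet A := measurableSet_le measurable_const (by fun_prop)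
  have h1 : ∫⁻ y in A, σ y = ⊤ := by
    by_contra hc
    have h2 : ∫⁻ y, σ y ≤ (∫⁻ y in A, σ y) + ∫⁻ y in Icc (-R) R, σ y := by
      rw [← setLIntegral_univ]
      refine le_trans (lintegral_mono_set ?_) (lintegral_union_le _ _ _)
      intro y _
      by_cases hy : R ≤ |y|
      · exact Or.inl hy
      · push Not at hy
        have := abs_lt.mp hy
        exact Or.inr ⟨this.1.le, this.2.le⟩
    rw [hS, top_le_iff, ENNReal.add_eq_top] at h2
    rcases h2 with h2 | h2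
    · exact hc h2
    · exact (hloc (-R) R).ne h2
  set E : ℕ → Set ℝ := fun n => A ∩ Icc (-(n : ℝ)) n with hE
  have hmono : Monotone E := by
    intro n m h
    have : (n : ℝ) ≤ m := by exact_mod_cast h
    exact inter_subset_inter_right A (Icc_subset_Icc (by linarith) this)
  have hU : ⋃ n, E n = A := by
    rw [hE, ← inter_iUnion]
    have : ⋃ n : ℕ, Icc (-(n : ℝ)) n = univ := by
      rw [eq_univ_iff_forall]
      intro x
      obtain ⟨n, hn⟩ := exists_nat_ge |x|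
      exact mem_iUnion.mpr ⟨n, by rw [mem_Icc]; exact abs_le.mp hn⟩
    rw [this, inter_univ]
  have h2 : ⨆ n, ∫⁻ y in E n, σ y = ⊤ := by
    rw [← setLIntegral_iUnion_of_directed _ (Monotone.directed_le hmono), hU, h1]
  obtain ⟨n, hn⟩ := lt_iSup_iff.mp (show ENNReal.ofReal a < ⨆ n, ∫⁻ y in E n, σ y by
    rw [h2]; exact ENNReal.ofReal_lt_top)
  refine ⟨E n, hAm.inter measurableSet_Icc, ?_, fun x hx => hx.1, hn⟩
  exact lt_of_le_of_lt (measure_mono inter_subset_right) (by simp)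

theorem K0_ne_top (hp : 1 < p) {D : ℝ≥0∞} (hD : D ≠ ⊤) (hS : ∫⁻ x, sig p U x ≠ ⊤)
    (hP : ∫⁻ x in Icc (-3 : ℝ) 3, ENNReal.ofReal (U x) ≠ ⊤) : K0 p U D ≠ ⊤ := by
  unfold K0
  refine ENNReal.mul_ne_top hD (ENNReal.mul_ne_top
    (ENNReal.rpow_ne_top_of_nonneg (by linarith) (by simp)) (ENNReal.add_ne_top.mpr ⟨by simp,
      ENNReal.mul_ne_top (ENNReal.rpow_ne_top_of_nonneg (by linarith) hS) hP⟩))

theorem K1_ne_top (hp : 1 < p) (hS : ∫⁻ x, sig p U x ≠ ⊤)
    (hP : ∫⁻ x in Icc (-3 : ℝ) 3, ENNReal.ofReal (U x) ≠ ⊤) : K1 p U ≠ ⊤ := by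
  unfold K1
  refine ENNReal.mul_ne_top (ENNReal.rpow_ne_top_of_nonneg (by linarith) (by simp))
    (ENNReal.add_ne_top.mpr ⟨ENNReal.mul_ne_top hP (ENNReal.mul_ne_top
      (ENNReal.rpow_ne_top_of_nonneg (by linarith) (by simp))
      (ENNReal.rpow_ne_top_of_nonneg (by linarith) hS)), by simp⟩)

/-- `A_p` bound in averaged form, over closed intervals -/
theorem ApBd.avg {w : ℝ → ℝ} {C : ℝ≥0∞} (hp : 1 < p) (h : ApBd p w C) {a b : ℝ} (hab : a < b) :
    ((ENNReal.ofReal (b - a))⁻¹ * ∫⁻ x in Icc a b, ENNReal.ofReal (w x)) *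
      ((ENNReal.ofReal (b - a))⁻¹ *
        ∫⁻ x in Icc a b, ENNReal.ofReal (w x) ^ (-(1 / (p - 1)))) ^ (p - 1) ≤ C := by
  have hp0 : 0 < p := by linarith
  have hp1 : 0 < p - 1 := by linarith
  have hL : 0 < b - a := by linarith
  have h1 := h a (b - a) hL
  have e : a + (b - a) = b := by ring
  rw [e] at h1
  have e1 : ∀ f : ℝ → ℝ≥0∞, ∫⁻ x in Icc a b, f x = ∫⁻ x in Ioo a b, f x := fun f =>
    (setLIntegral_congr Ioo_ae_eq_Icc).symm
  rw [e1, e1]
  set l := ENNReal.ofReal (b - a) with hl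
  have hl0 : l ≠ 0 := (ENNReal.ofReal_pos.mpr hL).ne'
  have hlt : l ≠ ⊤ := ENNReal.ofReal_ne_top
  have hli0 : l⁻¹ ≠ 0 := ENNReal.inv_ne_zero.mpr hlt
  have hlit : l⁻¹ ≠ ⊤ := ENNReal.inv_ne_top.mpr hl0
  change (l⁻¹ * ∫⁻ x in Ioo a b, ENNReal.ofReal (w x)) *
    (l⁻¹ * ∫⁻ x in Ioo a b, sig p w x) ^ (p - 1) ≤ C
  rw [ENNReal.mul_rpow_of_nonneg _ _ hp1.le]
  calc _ = (l⁻¹ * l⁻¹ ^ (p - 1)) * ((∫⁻ x in Ioo a b, ENNReal.ofReal (w x)) *
        (∫⁻ x in Ioo a b, sig p w x) ^ (p - 1)) := by ring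
    _ = l⁻¹ ^ p * ((∫⁻ x in Ioo a b, ENNReal.ofReal (w x)) *
        (∫⁻ x in Ioo a b, sig p w x) ^ (p - 1)) := by
        congr 1
        have : l⁻¹ ^ p = l⁻¹ ^ (1 + (p - 1)) := by congr 1; ring
        rw [this, ENNReal.rpow_add _ _ hli0 hlit, ENNReal.rpow_one]
    _ ≤ l⁻¹ ^ p * (C * l ^ p) := by gcongr
    _ = C * (l⁻¹ * l) ^ p := by
        rw [ENNReal.mul_rpow_of_nonneg _ _ hp0.le]; ring
    _ = C := by rw [ENNReal.inv_mul_cancel hl0 hlt, ENNReal.one_rpow, mul_one]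

end Pool.Agent.H414R4.MZ
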