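import Pool.Agent.H414R4.MZCase3

open MeasureTheory Set Filter Topology
open scoped ENNReal NNReal

namespace Pool.Agent.H414R4.MZ

variable {p : ℝ} {U : ℝ → ℝ}

/-- a further constant for large intervals -/
noncomputable def K1 (p : ℝ) (U : ℝ → ℝ) : ℝ≥0∞ :=
  2 ^ (p - 1) * ((∫⁻ x in Icc (-3 : ℝ) 3, ENNReal.ofReal (U x)) *
    (3 ^ p * (∫⁻ x, sig p U x) ^ (p - 1)) + 1)

theorem caseIII_large (hp : 1 < p) {D : ℝ≥0∞} (hUm : Measurable U)
    (hU0 : ∀ x, 0 ≤ U x) (hG : Good p D U) (hS : ∫⁻ x, sig p U x ≠ ⊤)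
    {t s : ℝ} (ht : 3 ≤ t) (hs : s = 1 ∨ s = -1) :
    Hyp p (fun x => (1 + |x|) ^ (-p) * U x) (half s t) (half (-s) t)
      (ENNReal.ofReal (6 * t) ^ p * K0 p U D * K1 p U) := by
  rintro G hGm hG0 ⟨M, hM⟩
  have hp0 : 0 < p := by linarith
  have hM0 : 0 ≤ M := (hG0 0).trans (hM 0)
  set A1 : Set ℝ := {y | 0 < s * y ∧ s * y < 2} with hA1
  set A2 : Set ℝ := {y | 2 ≤ s * y ∧ s * y < t} with hA2
  set A3 : Set ℝ := {y | 2 ≤ s * y ∧ s * y < 3} with hA3
  have m0 : Measurable (fun y : ℝ => s * y) := measurable_const.mul measurable_id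
  have hA1m : MeasurableSet A1 :=
    (measurableSet_lt measurable_const m0).inter (measurableSet_lt m0 measurable_const)
  have hA2m : MeasurableSet A2 :=
    (measurableSet_le measurable_const m0).inter (measurableSet_lt m0 measurable_const)
  have hA3m : MeasurableSet A3 :=
    (measurableSet_le measurable_const m0).inter (measurableSet_lt m0 measurable_const)
  have hhm : MeasurableSet (half s t) := (half_open s t).measurableSet
  set w : ℝ → ℝ := fun x => (1 + |x|) ^ (-p) * U x with hw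
  set F1 : ℝ → ℝ := A1.indicator G with hF1
  set F2 : ℝ → ℝ := A2.indicator G with hF2
  set W := ∫⁻ x in half (-s) t, ENNReal.ofReal (w x) with hW
  set Q := ∫⁻ x in half s t, ENNReal.ofReal (G x ^ p * w x) with hQ
  set P := ∫⁻ x in Icc (-3 : ℝ) 3, ENNReal.ofReal (U x) with hP
  set S := ∫⁻ x, sig p U x with hSdef
  set T1 := ENNReal.ofReal (6 * t) ^ p * K0 p U D with hT1
  have ind : ∀ (A : Set ℝ), A ⊆ half s t →
      ∫⁻ x, ENNReal.ofReal ((A.indicator G x) ^ p * w x) ≤ Q := by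
    intro A hA
    rw [hQ, ← lintegral_indicator hhm]
    apply lintegral_mono
    intro x
    by_cases hx : x ∈ A
    · simp only
      rw [indicator_of_mem hx, indicator_of_mem (hA hx)]
    · simp only
      rw [indicator_of_notMem hx, Real.zero_rpow hp0.ne', zero_mul, ENNReal.ofReal_zero]
      exact zero_le
  have hsplit : ∫⁻ x in half s t, ENNReal.ofReal (G x) ≤
      (∫⁻ x, ENNReal.ofReal (F1 x)) + ∫⁻ x, ENNReal.ofReal (F2 x) := by
    rw [← lintegral_indicator hhm, ← lintegral_add_left (hGm.indicator hA1m).ennreal_ofReal]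
    apply lintegral_mono
    intro x
    change (half s t).indicator (fun x => ENNReal.ofReal (G x)) x ≤
      ENNReal.ofReal (A1.indicator G x) + ENNReal.ofReal (A2.indicator G x)
    by_cases hx : x ∈ half s t
    · rw [indicator_of_mem hx]
      by_cases h2 : s * x < 2
      · have : x ∈ A1 := ⟨hx.1, h2⟩
        rw [indicator_of_mem this]; exact le_self_add
      · have : x ∈ A2 := ⟨not_lt.mp h2, hx.2⟩
        rw [indicator_of_mem this]; exact le_add_self
    · rw [indicator_of_notMem hx]; exact zero_le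
  have hA : W * (∫⁻ x, ENNReal.ofReal (F2 x)) ^ p ≤ T1 * Q := by
    have h1 := large_core hp hUm hU0 hG hS (t := t) (by linarith) hs (F := F2)
      (hGm.indicator hA2m) (fun y => indicator_nonneg (fun y _ => hG0 y) y) (M := M)
      (by
        intro y
        by_cases hy : y ∈ A2
        · rw [hF2, indicator_of_mem hy, abs_of_nonneg (hG0 y)]; exact hM y
        · rw [hF2, indicator_of_notMem hy, abs_zero]; exact hM0)
      (fun y hy => indicator_of_notMem (s := A2) hy _)
    refine h1.trans ?_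
    gcongr
    apply ind
    intro y hy
    exact ⟨by linarith [hy.1], hy.2⟩
  have hB : W ≤ T1 * P := by
    have h1 := large_core hp hUm hU0 hG hS (t := t) (by linarith) hs
      (F := A3.indicator fun _ => (1 : ℝ))
      (measurable_const.indicator hA3m) (fun y => indicator_nonneg (fun y _ => zero_le_one) y)
      (M := 1)
      (by
        intro y
        by_cases hy : y ∈ A3
        · rw [indicator_of_mem hy, abs_one]
        · rw [indicator_of_notMem hy, abs_zero]; exact zero_le_one)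
      (fun y hy => indicator_of_notMem (fun h => hy ⟨h.1, by linarith [h.2]⟩) _)
    have h2 : ∫⁻ y, ENNReal.ofReal (A3.indicator (fun _ => (1 : ℝ)) y) = 1 := by
      have : ∀ y, ENNReal.ofReal (A3.indicator (fun _ => (1 : ℝ)) y) =
          A3.indicator (fun _ => (1 : ℝ≥0∞)) y := by
        intro y
        by_cases hy : y ∈ A3
        · rw [indicator_of_mem hy, indicator_of_mem hy, ENNReal.ofReal_one]
        · rw [indicator_of_notMem hy, indicator_of_notMem hy, ENNReal.ofReal_zero]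
      simp_rw [this]
      rw [lintegral_indicator hA3m]
      simp only [lintegral_const, one_mul, Measure.restrict_apply MeasurableSet.univ, univ_inter]
      rcases hs with h | h
      · have : A3 = Ico 2 3 := by
          ext y; simp only [hA3, h, one_mul]; rfl
        rw [this, Real.volume_Ico]; norm_num
      · have : A3 = Ioc (-3) (-2) := by
          ext y
          constructor
          · rintro ⟨h1, h2⟩; rw [h] at h1 h2; constructor <;> linarith
          · rintro ⟨h1, h2⟩; constructor <;> rw [h] <;> linarith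
        rw [this, Real.volume_Ioc]; norm_num
    rw [h2, ENNReal.one_rpow, mul_one] at h1
    refine h1.trans ?_
    gcongr
    rw [hP, ← lintegral_indicator measurableSet_Icc]
    apply lintegral_mono
    intro y
    by_cases hy : y ∈ A3
    · have hy3 : y ∈ Icc (-3 : ℝ) 3 := by
        rcases hs with h | h
        · have h1 := hy.1; have h2 := hy.2; rw [h] at h1 h2; constructor <;> linarith
        · have h1 := hy.1; have h2 := hy.2; rw [h] at h1 h2; constructor <;> linarith
      simp only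
      rw [indicator_of_mem hy, indicator_of_mem hy3, Real.one_rpow, one_mul]
      apply ENNReal.ofReal_le_ofReal
      have h3 : (1 + |y|) ^ (-p) ≤ 1 := by
        apply Real.rpow_le_one_of_one_le_of_nonpos _ (by linarith)
        have := abs_nonneg y; linarith
      calc (1 + |y|) ^ (-p) * U y ≤ 1 * U y := by gcongr; exact hU0 y
        _ = U y := one_mul _
    · simp only
      rw [indicator_of_notMem hy, Real.zero_rpow hp0.ne', zero_mul, ENNReal.ofReal_zero]
      exact zero_le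
  have hC : (∫⁻ x, ENNReal.ofReal (F1 x)) ^ p ≤ 3 ^ p * S ^ (p - 1) * Q := by
    set g : ℝ → ℝ := fun y => F1 y / (1 + |y|) with hg
    have hF1m : Measurable F1 := hGm.indicator hA1m
    have hF10 : ∀ y, 0 ≤ F1 y := fun y => indicator_nonneg (fun y _ => hG0 y) y
    have hgm : Measurable g := by fun_prop
    have hg0 : ∀ y, 0 ≤ g y := fun y => div_nonneg (hF10 y) (by positivity)
    have h1 := holder hp hUm (E := univ) hgm hg0 (by simpa using hS)
    simp only [Measure.restrict_univ] at h1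
    have h2 : ∫⁻ x, ENNReal.ofReal (F1 x) ≤ 3 * ∫⁻ x, ENNReal.ofReal (g x) := by
      rw [← lintegral_const_mul' _ _ (by simp)]
      apply lintegral_mono
      intro y
      simp only
      have e3 : (3 : ℝ≥0∞) = ENNReal.ofReal 3 := by simp
      rw [e3, ← ENNReal.ofReal_mul (by norm_num)]
      apply ENNReal.ofReal_le_ofReal
      by_cases hy : y ∈ A1
      · have hy2 : 1 + |y| ≤ 3 := by
          have h1 := hy.1; have h2 := hy.2
          rcases hs with h | h
          · rw [h, one_mul] at h1 h2; rw [abs_of_pos h1]; linarith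
          · rw [h, neg_one_mul] at h1 h2; rw [abs_of_neg (by linarith)]; linarith
        simp only [hg]
        rw [mul_div_assoc', le_div_iff₀ (by positivity)]
        nlinarith [hF10 y]
      · have : F1 y = 0 := indicator_of_notMem hy _
        simp [hg, this]
    have h3 : ∫⁻ x, ENNReal.ofReal (g x ^ p * U x) ≤ Q := by
      refine le_trans (le_of_eq ?_) (ind A1 fun y hy => ⟨hy.1, by linarith [hy.2]⟩)
      apply lintegral_congr
      intro x
      congr 1
      simp only [hg, hw]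
      rw [Real.div_rpow (hF10 x) (by positivity), Real.rpow_neg (by positivity)]
      ring
    calc (∫⁻ x, ENNReal.ofReal (F1 x)) ^ p ≤ (3 * ∫⁻ x, ENNReal.ofReal (g x)) ^ p := by gcongr
      _ = 3 ^ p * (∫⁻ x, ENNReal.ofReal (g x)) ^ p := ENNReal.mul_rpow_of_nonneg _ _ hp0.le
      _ ≤ 3 ^ p * ((∫⁻ x, ENNReal.ofReal (g x ^ p * U x)) * S ^ (p - 1)) := by gcongr
      _ ≤ 3 ^ p * (Q * S ^ (p - 1)) := by gcongr
      _ = _ := by ring
  calc W * (∫⁻ x in half s t, ENNReal.ofReal (G x)) ^ p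
      ≤ W * ((∫⁻ x, ENNReal.ofReal (F1 x)) + ∫⁻ x, ENNReal.ofReal (F2 x)) ^ p := by gcongr
    _ ≤ W * (2 ^ (p - 1) * ((∫⁻ x, ENNReal.ofReal (F1 x)) ^ p +
          (∫⁻ x, ENNReal.ofReal (F2 x)) ^ p)) := by
        gcongr
        exact ENNReal.rpow_add_le_mul_rpow_add_rpow _ _ hp.le
    _ = 2 ^ (p - 1) * (W * (∫⁻ x, ENNReal.ofReal (F1 x)) ^ p +
          W * (∫⁻ x, ENNReal.ofReal (F2 x)) ^ p) := by ring
    _ ≤ 2 ^ (p - 1) * ((T1 * P) * (3 ^ p * S ^ (p - 1) * Q) + T1 * Q) := by gcongr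
    _ = T1 * K1 p U * Q := by rw [K1]; ring

/-- interval form of the `A_p` bound -/
def ApBd (p : ℝ) (w : ℝ → ℝ) (C : ℝ≥0∞) : Prop :=
  ∀ a L : ℝ, 0 < L → (∫⁻ x in Ioo a (a + L), ENNReal.ofReal (w x)) *
    (∫⁻ x in Ioo a (a + L), sig p w x) ^ (p - 1) ≤ C * ENNReal.ofReal L ^ p

theorem scale (hp : 1 < p) {c L : ℝ} (hc : 0 ≤ c) (X : ℝ≥0∞) :
    ENNReal.ofReal (c * L) ^ p * X = (ENNReal.ofReal c ^ p * X) * ENNReal.ofReal L ^ p := by
  rw [ENNReal.ofReal_mul hc, ENNReal.mul_rpow_of_nonneg _ _ (by linarith)]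
  ring

theorem adjA (a L : ℝ) : ∀ x ∈ Ioo (a + L) (a + 2 * L), ∀ y ∈ Ioo a (a + L),
    0 < 1 * (x - y) ∧ 1 * (x - y) ≤ 2 * L := by
  intro x hx y hy
  constructor <;> linarith [hx.1, hx.2, hy.1, hy.2]

theorem adjB (a L : ℝ) : ∀ x ∈ Ioo a (a + L), ∀ y ∈ Ioo (a + L) (a + 2 * L),
    0 < -1 * (x - y) ∧ -1 * (x - y) ≤ 2 * L := by
  intro x hx y hy
  constructor <;> linarith [hx.1, hx.2, hy.1, hy.2]

theorem caseI_Ap (hp : 1 < p) {D : ℝ≥0∞} (hD : D ≠ ⊤) (hUm : Measurable U)
    (hU0 : ∀ x, 0 ≤ U x) (hG : Good p D U) {x₀ : ℝ}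
    (hsing : ∀ η > 0, ∫⁻ x in Ioo (x₀ - η) (x₀ + η), sig p U x = ⊤) :
    ApBd p (fun x => |x - x₀| ^ (-p) * U x)
      ((ENNReal.ofReal 6 ^ p * (D * 2 ^ (p - 1))) * (ENNReal.ofReal 6 ^ p * (D * 2 ^ (p - 1)))) := by
  intro a L hL
  have hwm : Measurable (fun x => |x - x₀| ^ (-p) * U x) := by fun_prop
  have hw0 : ∀ x, 0 ≤ |x - x₀| ^ (-p) * U x := fun x => mul_nonneg (by positivity) (hU0 x)
  have h1 := caseI hp hD hUm hU0 hG hsing (I := Ioo a (a + L)) (I' := Ioo (a + L) (a + 2 * L))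
    hL (Or.inl rfl) measurableSet_Ioo (by simp) isOpen_Ioo
    (fun x hx h => by linarith [hx.1, h.2]) (adjA a L)
  have h2 := caseI hp hD hUm hU0 hG hsing (I := Ioo (a + L) (a + 2 * L)) (I' := Ioo a (a + L))
    hL (Or.inr rfl) measurableSet_Ioo (by simp) isOpen_Ioo
    (fun x hx h => by linarith [hx.2, h.1]) (adjB a L)
  rw [scale hp (by norm_num)] at h1 h2
  exact Ap_of_pair hp hwm hw0 hL (by rw [Real.volume_Ioo]; congr 1; ring)
    (by rw [Real.volume_Ioo]; congr 1; ring) h1 h2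

theorem caseII_Ap (hp : 1 < p) {D : ℝ≥0∞} (hD : D ≠ ⊤) (hUm : Measurable U)
    (hU0 : ∀ x, 0 ≤ U x) (hG : Good p D U)
    (hinf : ∀ R a : ℝ, 0 < a → ∃ E : Set ℝ, MeasurableSet E ∧ volume E < ⊤ ∧
      (∀ x ∈ E, R ≤ |x|) ∧ ENNReal.ofReal a < ∫⁻ x in E, sig p U x) :
    ApBd p U
      ((ENNReal.ofReal 4 ^ p * (D * 2 ^ (p - 1))) * (ENNReal.ofReal 4 ^ p * (D * 2 ^ (p - 1)))) := by
  intro a L hL
  have hbd : ∀ x ∈ Ioo a (a + 2 * L), |x| ≤ |a| + 2 * L := by
    intro x hx
    have h1 := neg_abs_le a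
    have h2 := le_abs_self a
    rw [abs_le]; constructor <;> linarith [hx.1, hx.2]
  have h1 := caseII hp hD hUm hU0 hG hinf (I := Ioo a (a + L)) (I' := Ioo (a + L) (a + 2 * L))
    hL (Or.inl rfl) measurableSet_Ioo (by simp) isOpen_Ioo
    (fun x hx h => by linarith [hx.1, h.2])
    (fun x hx => hbd x ⟨by linarith [hx.1], hx.2⟩) (adjA a L)
  have h2 := caseII hp hD hUm hU0 hG hinf (I := Ioo (a + L) (a + 2 * L)) (I' := Ioo a (a + L))
    hL (Or.inr rfl) measurableSet_Ioo (by simp) isOpen_Ioo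
    (fun x hx h => by linarith [hx.2, h.1])
    (fun x hx => hbd x ⟨hx.1, by linarith [hx.2]⟩) (adjB a L)
  rw [scale hp (by norm_num)] at h1 h2
  exact Ap_of_pair hp hUm hU0 hL (by rw [Real.volume_Ioo]; congr 1; ring)
    (by rw [Real.volume_Ioo]; congr 1; ring) h1 h2

end Pool.Agent.H414R4.MZ
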